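import Mathlib
import Pool.Agent.H790R3.RB.TSP
import Pool.Agent.H790R3.RB.TWR
import Pool.Agent.H790R3.RB.TINJL
import Pool.Agent.H790R3.RB.TPQ
import Pool.Agent.H790R3.RB.TMOB

/-! Compositions of perturbations of a rational map: homogeneous lifts and words. -/

set_option autoImplicit false

open Topology Filter Metric Set Polynomial
open scoped OnePoint

namespace Pool.Agent.W739.RC

open Pool.Agent.H790R3.RB

/-- two by two matrices -/
abbrev E2 : Type := Fin 2 → Fin 2 → ℂ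

/-- the action on vectors -/
def mv (M : E2) (p : ℂ × ℂ) : ℂ × ℂ := (M 0 0 * p.1 + M 0 1 * p.2, M 1 0 * p.1 + M 1 1 * p.2)

/-- the identity -/
def I2 : E2 := fun i j => if i = j then 1 else 0

/-- the product -/
def mm (M N : E2) : E2 := fun i j => M i 0 * N 0 j + M i 1 * N 1 j

/-- the determinant -/
def dt (M : E2) : ℂ := M 0 0 * M 1 1 - M 0 1 * M 1 0

/-- the action on coefficients -/
def mx {d : ℕ} (M : E2) (x : CV d) : CV d := fun ij => M ij.1 0 * x (0, ij.2) + M ij.1 1 * x (1, ij.2)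

theorem hF_mx {d : ℕ} (M : E2) (x : CV d) (p : ℂ × ℂ) : hF (mx M x) p = mv M (hF x p) := by
  unfold hF mv mx
  ext
  · simp only [Finset.mul_sum, ← Finset.sum_add_distrib]
    refine Finset.sum_congr rfl fun j _ => ?_
    ring
  · simp only [Finset.mul_sum, ← Finset.sum_add_distrib]
    refine Finset.sum_congr rfl fun j _ => ?_
    ring

theorem mv_mm (M N : E2) (p : ℂ × ℂ) : mv (mm M N) p = mv M (mv N p) := by
  unfold mv mm
  ext
  · simp only; ring
  · simp only; ring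

theorem mv_I2 (p : ℂ × ℂ) : mv I2 p = p := by
  unfold mv I2
  ext <;> simp

theorem mx_I2 {d : ℕ} (x : CV d) : mx I2 x = x := by
  unfold mx I2
  funext ⟨i, j⟩
  fin_cases i <;> simp

theorem mv_smul (M : E2) (a : ℂ) (p : ℂ × ℂ) : mv M (a • p) = a • mv M p := by
  unfold mv
  ext
  · simp only [Prod.smul_fst, Prod.smul_snd, smul_eq_mul]; ring
  · simp only [Prod.smul_fst, Prod.smul_snd, smul_eq_mul]; ring

theorem mv_add (M : E2) (p q : ℂ × ℂ) : mv M (p + q) = mv M p + mv M q := by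
  unfold mv
  ext
  · simp only [Prod.fst_add, Prod.snd_add]; ring
  · simp only [Prod.fst_add, Prod.snd_add]; ring

theorem cr_mv (M : E2) (p q : ℂ × ℂ) : cr (mv M p) (mv M q) = dt M * cr p q := by
  unfold cr mv dt
  ring

theorem mv_ne {M : E2} (hM : dt M ≠ 0) {p : ℂ × ℂ} (hp : p ≠ 0) : mv M p ≠ 0 := by
  intro h
  have h1 : dt M * p.1 = 0 := by
    have e1 := congrArg Prod.fst h
    have e2 := congrArg Prod.snd h
    simp only [mv, Prod.fst_zero, Prod.snd_zero] at e1 e2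
    unfold dt
    linear_combination M 1 1 * e1 - M 0 1 * e2
  have h2 : dt M * p.2 = 0 := by
    have e1 := congrArg Prod.fst h
    have e2 := congrArg Prod.snd h
    simp only [mv, Prod.fst_zero, Prod.snd_zero] at e1 e2
    unfold dt
    linear_combination M 0 0 * e2 - M 1 0 * e1
  exact hp (Prod.ext ((mul_eq_zero.1 h1).resolve_left hM) ((mul_eq_zero.1 h2).resolve_left hM))

theorem dt_ne {M : E2} (h : ‖M - I2‖ < 1 / 2) : dt M ≠ 0 := by
  have hij : ∀ i j, ‖M i j - I2 i j‖ < 1 / 2 := fun i j =>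
    (norm_le_pi_norm ((M - I2) i) j).trans_lt ((norm_le_pi_norm (M - I2) i).trans_lt h)
  have h00 := hij 0 0
  have h11 := hij 1 1
  have h01 := hij 0 1
  have h10 := hij 1 0
  simp only [I2, if_true, Fin.isValue, zero_ne_one, one_ne_zero, if_false, sub_zero] at h00 h11 h01 h10
  have e00 : 1 / 2 < ‖M 0 0‖ := by
    have := norm_sub_norm_le (1 : ℂ) (1 - M 0 0)
    rw [sub_sub_cancel, norm_one, ← norm_neg (1 - M 0 0), neg_sub] at this
    linarith
  have e11 : 1 / 2 < ‖M 1 1‖ := by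
    have := norm_sub_norm_le (1 : ℂ) (1 - M 1 1)
    rw [sub_sub_cancel, norm_one, ← norm_neg (1 - M 1 1), neg_sub] at this
    linarith
  intro h0
  have h1 : M 0 0 * M 1 1 = M 0 1 * M 1 0 := by unfold dt at h0; linear_combination h0
  have h2 : ‖M 0 0‖ * ‖M 1 1‖ = ‖M 0 1‖ * ‖M 1 0‖ := by rw [← norm_mul, h1, norm_mul]
  nlinarith [norm_nonneg (M 0 1), norm_nonneg (M 1 0)]

theorem mv_continuous : Continuous fun q : E2 × (ℂ × ℂ) => mv q.1 q.2 := by
  unfold mv
  fun_prop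

theorem mm_continuous : Continuous fun q : E2 × E2 => mm q.1 q.2 := by
  unfold mm
  fun_prop

theorem mv_differentiable (M : E2) : Differentiable ℂ (mv M) := by
  unfold mv
  fun_prop

theorem nd_mx {d : ℕ} {M : E2} (hM : dt M ≠ 0) {x : CV d} (hx : ND x) : ND (mx M x) := by
  intro p hp
  rw [hF_mx] at hp
  by_contra h
  exact mv_ne hM (fun h' => h (hx p h')) hp

theorem wr_mx {d : ℕ} (M : E2) (x : CV d) (p : ℂ × ℂ) : wr (mx M x) p = dt M * wr x p := by
  have hU : ∀ i, WR.SU (fun j => mx M x (i, j)) p =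
      M i 0 * WR.SU (fun j => x (0, j)) p + M i 1 * WR.SU (fun j => x (1, j)) p := by
    intro i
    unfold WR.SU mx
    simp only [Finset.mul_sum, ← Finset.sum_add_distrib]
    refine Finset.sum_congr rfl fun j _ => ?_
    ring
  have hV : ∀ i, WR.SV (fun j => mx M x (i, j)) p =
      M i 0 * WR.SV (fun j => x (0, j)) p + M i 1 * WR.SV (fun j => x (1, j)) p := by
    intro i
    unfold WR.SV mx
    simp only [Finset.mul_sum, ← Finset.sum_add_distrib]
    refine Finset.sum_congr rfl fun j _ => ?_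
    ring
  rw [WR.wr_eq, WR.wr_eq, hU, hU, hV, hV]
  unfold dt
  ring

/-- the open set of matrices -/
def Bl (ε : ℝ) : Set E2 := {M | ‖M - I2‖ < ε}

theorem isOpen_Bl (ε : ℝ) : IsOpen (Bl ε) :=
  isOpen_lt (continuous_norm.comp (continuous_id.sub continuous_const)) continuous_const

theorem I2_mem {ε : ℝ} (h : 0 < ε) : I2 ∈ Bl ε := by
  show ‖I2 - I2‖ < ε
  rwa [sub_self, norm_zero]

theorem Bl_marg {ε : ℝ} {M : E2} (hM : M ∈ Bl ε) : ∃ δ : ℝ, 0 < δ ∧ ∀ M' ∈ Bl δ, mm M' M ∈ Bl ε := by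
  have h1 : Continuous fun M' : E2 => mm M' M := mm_continuous.comp (continuous_id.prodMk continuous_const)
  have h2 : mm I2 M = M := by
    funext i j
    unfold mm I2
    fin_cases i <;> simp
  have h3 : (fun M' : E2 => mm M' M) ⁻¹' Bl ε ∈ 𝓝 I2 :=
    ((isOpen_Bl ε).preimage h1).mem_nhds (by rw [mem_preimage, h2]; exact hM)
  obtain ⟨δ, hδ, h4⟩ := Metric.mem_nhds_iff.1 h3
  refine ⟨δ, hδ, fun M' hM' => h4 ?_⟩
  rw [mem_ball, dist_eq_norm]
  exact hM'

/-- uniform version for a smaller ball -/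
theorem Bl_marg_unif {ε ε' : ℝ} (h : ε' < ε) : ∃ δ : ℝ, 0 < δ ∧ ∀ M ∈ Bl ε', ∀ M' ∈ Bl δ, mm M' M ∈ Bl ε := by
  set δ : ℝ := (ε - ε') / (2 * (|ε'| + 1)) with hδ
  have hδ0 : 0 < δ := by
    apply div_pos (by linarith)
    positivity
  refine ⟨δ, hδ0, fun M hM M' hM' => ?_⟩
  have e1 : mm M' M - I2 = mm (M' - I2) M + (M - I2) := by
    funext i j
    simp only [mm, Pi.sub_apply, Pi.add_apply]
    unfold I2
    fin_cases i <;> simp <;> ring
  have hb : 0 ≤ ε' := (norm_nonneg _).trans (le_of_lt hM)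
  have hM1 : ‖M‖ ≤ ε' + 1 := by
    have h1 : ‖(I2 : E2)‖ ≤ 1 := by
      refine (pi_norm_le_iff_of_nonneg zero_le_one).2 fun i =>
        (pi_norm_le_iff_of_nonneg zero_le_one).2 fun j => ?_
      unfold I2
      split_ifs <;> simp
    have h2 : ‖M‖ ≤ ‖M - I2‖ + ‖(I2 : E2)‖ := by
      have := norm_add_le (M - I2) I2
      rwa [sub_add_cancel] at this
    have h3 : ‖M - I2‖ < ε' := hM
    linarith
  have h2 : ‖mm (M' - I2) M‖ ≤ 2 * ‖M' - I2‖ * ‖M‖ := by
    have hnn : 0 ≤ 2 * ‖M' - I2‖ * ‖M‖ := by positivity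
    refine (pi_norm_le_iff_of_nonneg hnn).2 fun i => (pi_norm_le_iff_of_nonneg hnn).2 fun j => ?_
    unfold mm
    have k1 : ∀ (A : E2) (i j : Fin 2), ‖A i j‖ ≤ ‖A‖ := fun A i j =>
      (norm_le_pi_norm (A i) j).trans (norm_le_pi_norm A i)
    refine (norm_add_le _ _).trans ?_
    rw [norm_mul, norm_mul]
    have k2 := mul_le_mul (k1 (M' - I2) i 0) (k1 M 0 j) (norm_nonneg _) (norm_nonneg _)
    have k3 := mul_le_mul (k1 (M' - I2) i 1) (k1 M 1 j) (norm_nonneg _) (norm_nonneg _)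
    linarith
  show ‖mm M' M - I2‖ < ε
  rw [e1]
  have h4 : ‖M' - I2‖ < δ := hM'
  have h5 : ‖M - I2‖ < ε' := hM
  have h6 : 2 * δ * (ε' + 1) = ε - ε' := by
    rw [hδ, abs_of_nonneg hb]
    field_simp
  calc ‖mm (M' - I2) M + (M - I2)‖ ≤ ‖mm (M' - I2) M‖ + ‖M - I2‖ := norm_add_le _ _
    _ < 2 * δ * (ε' + 1) + ε' := by
        have : 2 * ‖M' - I2‖ * ‖M‖ ≤ 2 * δ * (ε' + 1) := by
          gcongr
        linarith
    _ = ε := by linarith

variable {d : ℕ}

/-- the composition along a word, on the level of homogeneous coordinates -/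
noncomputable def Ph (x : CV d) : List E2 → ℂ × ℂ → ℂ × ℂ
  | [], p => p
  | M :: w, p => Ph x w (mv M (hF x p))

/-- the composition along a word, on the sphere -/
noncomputable def Sg (x : CV d) : List E2 → OnePoint ℂ → OnePoint ℂ
  | [], z => z
  | M :: w, z => Sg x w (sp (mx M x) z)

/-- all letters are in the ball -/
def Ok (ε : ℝ) (w : List E2) : Prop := ∀ M ∈ w, M ∈ Bl ε

theorem Ok.app {ε : ℝ} {u v : List E2} (hu : Ok ε u) (hv : Ok ε v) : Ok ε (u ++ v) := by
  intro M hM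
  rcases List.mem_append.1 hM with h | h
  · exact hu M h
  · exact hv M h

theorem Ok.left {ε : ℝ} {u v : List E2} (h : Ok ε (u ++ v)) : Ok ε u :=
  fun M hM => h M (List.mem_append_left _ hM)

theorem Ok.right {ε : ℝ} {u v : List E2} (h : Ok ε (u ++ v)) : Ok ε v :=
  fun M hM => h M (List.mem_append_right _ hM)

theorem Ok.mono {ε ε' : ℝ} (h : ε ≤ ε') {u : List E2} (hu : Ok ε u) : Ok ε' u :=
  fun M hM => lt_of_lt_of_le (hu M hM) h

theorem ok_nil (ε : ℝ) : Ok ε [] := fun _ hM => absurd hM (List.not_mem_nil)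

theorem ok_single {ε : ℝ} {M : E2} (h : M ∈ Bl ε) : Ok ε [M] := by
  intro M' hM'
  rw [List.mem_singleton] at hM'
  rwa [hM']

theorem Ph_append (x : CV d) (u v : List E2) (p : ℂ × ℂ) : Ph x (u ++ v) p = Ph x v (Ph x u p) := by
  induction u generalizing p with
  | nil => rfl
  | cons M u ih => exact ih _

theorem Sg_append (x : CV d) (u v : List E2) (z : OnePoint ℂ) :
    Sg x (u ++ v) z = Sg x v (Sg x u z) := by
  induction u generalizing z with
  | nil => rfl
  | cons M u ih => exact ih _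

theorem Ph_ne {x : CV d} (hx : ND x) {ε : ℝ} (hε : ε ≤ 1 / 2) {w : List E2} (hw : Ok ε w)
    {p : ℂ × ℂ} (hp : p ≠ 0) : Ph x w p ≠ 0 := by
  induction w generalizing p with
  | nil => exact hp
  | cons M w ih =>
    refine ih (fun M' hM' => hw M' (List.mem_cons_of_mem _ hM')) ?_
    refine mv_ne (dt_ne ?_) fun h => hp (hx p h)
    exact lt_of_lt_of_le (hw M (List.mem_cons_self)) hε

theorem Ph_smul (x : CV d) (w : List E2) (a : ℂ) (p : ℂ × ℂ) :
    Ph x w (a • p) = a ^ (d ^ w.length) • Ph x w p := by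
  induction w generalizing a p with
  | nil => simp [Ph]
  | cons M w ih =>
    show Ph x w (mv M (hF x (a • p))) = _
    rw [hF_smul, mv_smul, ih, ← pow_mul, List.length_cons, pow_succ']
    rfl

theorem hF_differentiable (x : CV d) : Differentiable ℂ (hF x) :=
  (INJL.hF_cd x).differentiable (by norm_num)

theorem Ph_differentiable (x : CV d) (w : List E2) : Differentiable ℂ (Ph x w) := by
  induction w with
  | nil => exact differentiable_id
  | cons M w ih => exact ih.comp ((mv_differentiable M).comp (hF_differentiable x))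

theorem Ph_continuous (x : CV d) (w : List E2) : Continuous (Ph x w) :=
  (Ph_differentiable x w).continuous

theorem Ph_cr {x : CV d} {w : List E2} {p q : ℂ × ℂ} (hp : p ≠ 0) (hq : q ≠ 0)
    (h : cr p q = 0) : cr (Ph x w p) (Ph x w q) = 0 := by
  obtain ⟨a, -, rfl⟩ := (cr_eq_zero_iff hp hq).mp h
  rw [Ph_smul, cr_smul_left, cr_self, mul_zero]

theorem Sg_pr {x : CV d} (hx : ND x) {ε : ℝ} (hε : ε ≤ 1 / 2) {w : List E2} (hw : Ok ε w)
    {p : ℂ × ℂ} (hp : p ≠ 0) : Sg x w (pr p) = pr (Ph x w p) := by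
  induction w generalizing p with
  | nil => rfl
  | cons M w ih =>
    have hM : dt M ≠ 0 := dt_ne (lt_of_lt_of_le (hw M (List.mem_cons_self)) hε)
    show Sg x w (sp (mx M x) (pr p)) = pr (Ph x w (mv M (hF x p)))
    rw [SP.sp_pr (nd_mx hM hx) hp, hF_mx,
      ih (fun M' hM' => hw M' (List.mem_cons_of_mem _ hM')) (mv_ne hM fun h => hp (hx p h))]

theorem Sg_continuous {x : CV d} (hx : ND x) {ε : ℝ} (hε : ε ≤ 1 / 2) {w : List E2}
    (hw : Ok ε w) : Continuous (Sg x w) := by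
  induction w with
  | nil => exact continuous_id
  | cons M w ih =>
    have hM : dt M ≠ 0 := dt_ne (lt_of_lt_of_le (hw M (List.mem_cons_self)) hε)
    exact (ih (fun M' hM' => hw M' (List.mem_cons_of_mem _ hM'))).comp
      (SP.sp_cont (nd_mx hM hx))

/-- Where the composition is not locally injective, the orbit meets a critical point. -/
theorem crit_of_not_inj (hd : 2 ≤ d) {x : CV d} (hx : ND x) {ε : ℝ} (hε : ε ≤ 1 / 2) {w : List E2}
    (hw : Ok ε w) {p : ℂ × ℂ} (hp : p ≠ 0) (h : ¬ ∃ U ∈ 𝓝 (pr p), InjOn (Sg x w) U) :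
    ∃ u v : List E2, w = u ++ v ∧ v ≠ [] ∧ wr x (Ph x u p) = 0 := by
  induction w generalizing p with
  | nil =>
    exact absurd ⟨univ, Filter.univ_mem, fun a _ b _ hab => hab⟩ h
  | cons M w ih =>
    have hM : dt M ≠ 0 := dt_ne (lt_of_lt_of_le (hw M (List.mem_cons_self)) hε)
    by_cases h0 : wr x p = 0
    · exact ⟨[], M :: w, rfl, List.cons_ne_nil _ _, h0⟩
    · have hnd := nd_mx hM hx
      obtain ⟨U₁, hU₁, hinj₁⟩ := INJL SP WR d (mx M x) p hd hnd hp (by
        rw [wr_mx]; exact mul_ne_zero hM h0)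
      have hp' : mv M (hF x p) ≠ 0 := mv_ne hM fun h => hp (hx p h)
      by_cases h2 : ∃ U ∈ 𝓝 (pr (mv M (hF x p))), InjOn (Sg x w) U
      · exfalso
        obtain ⟨U₂, hU₂, hinj₂⟩ := h2
        apply h
        have e1 : sp (mx M x) (pr p) = pr (mv M (hF x p)) := by
          rw [SP.sp_pr hnd hp, hF_mx]
        have h3 : (sp (mx M x)) ⁻¹' U₂ ∈ 𝓝 (pr p) :=
          (SP.sp_cont hnd).continuousAt.preimage_mem_nhds (by rw [e1]; exact hU₂)
        refine ⟨U₁ ∩ (sp (mx M x)) ⁻¹' U₂, Filter.inter_mem hU₁ h3, ?_⟩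
        intro a ha b hb hab
        exact hinj₁ ha.1 hb.1 (hinj₂ ha.2 hb.2 hab)
      · obtain ⟨u, v, h4, h5, h6⟩ := ih (fun M' hM' => hw M' (List.mem_cons_of_mem _ hM')) hp' h2
        exact ⟨M :: u, v, by rw [h4]; rfl, h5, h6⟩

/-! ### the critical points -/

theorem wr_poly (hd : 2 ≤ d) {x : CV d} (hx : ND x) : ∃ W : ℂ[X], W ≠ 0 ∧
    W.natDegree ≤ 2 * d - 2 ∧ (∀ ζ : ℂ, W.eval ζ = wr x (ζ, 1)) ∧ W.coeff (2 * d - 2) = wr x (1, 0) := by
  obtain ⟨-, ⟨W, hW1, hW2, hW3⟩, -⟩ := WR d x hd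
  refine ⟨W, ?_, hW1, hW2, hW3⟩
  intro h0
  obtain ⟨hcop, hmax, hco, hhi, -⟩ := (PQ SP d (by omega)).1 x hx
  have hU : ∀ i, WR.WU (fun j => x (i, j)) = derivative (pol x i) := by
    intro i
    unfold WR.WU pol
    rw [derivative_sum]
    refine Finset.sum_congr rfl fun j _ => ?_
    rw [derivative_monomial, ← C_mul_X_pow_eq_monomial]
  have hV : ∀ i, WR.WV (fun j => x (i, j)) = C (d : ℂ) * pol x i - X * derivative (pol x i) := by
    intro i
    unfold WR.WV pol
    rw [derivative_sum, Finset.mul_sum, Finset.mul_sum, ← Finset.sum_sub_distrib]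
    refine Finset.sum_congr rfl fun j _ => ?_
    rw [derivative_monomial, ← C_mul_X_pow_eq_monomial, ← C_mul_X_pow_eq_monomial]
    rcases Nat.eq_zero_or_pos (j : ℕ) with h | h
    · rw [h]
      simp [mul_comm]
    · have e1 : (X : ℂ[X]) * (C (x (i, j) * ((j : ℕ) : ℂ)) * X ^ ((j : ℕ) - 1)) =
          C (x (i, j) * ((j : ℕ) : ℂ)) * X ^ (j : ℕ) := by
        have : (X : ℂ[X]) ^ (j : ℕ) = X * X ^ ((j : ℕ) - 1) := by
          rw [← pow_succ', Nat.sub_add_cancel h]
        rw [this]; ring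
      rw [e1, ← mul_assoc, ← C_mul, ← sub_mul, ← C_sub]
      congr 2
      rw [Nat.cast_sub (by have := j.2; omega)]
      ring
  have hall : ∀ ζ : ℂ, (wronskian (pol x 0) (pol x 1)).eval ζ = 0 := by
    intro ζ
    have h1 : wr x (ζ, 1) = 0 := by rw [← hW2 ζ, h0, eval_zero]
    rw [WR.wr_eq, ← WR.WU_eval, ← WR.WU_eval, ← WR.WV_eval, ← WR.WV_eval, hU, hU, hV, hV] at h1
    simp only [eval_sub, eval_mul, eval_C, eval_X] at h1
    have hd0 : (d : ℂ) ≠ 0 := by
      exact_mod_cast (by omega : d ≠ 0)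
    have h2 : (d : ℂ) * (wronskian (pol x 0) (pol x 1)).eval ζ = 0 := by
      unfold wronskian
      simp only [eval_sub, eval_mul]
      linear_combination -h1
    exact (mul_eq_zero.1 h2).resolve_left hd0
  have hw0 : wronskian (pol x 0) (pol x 1) = 0 := Polynomial.funext (by simpa using hall)
  obtain ⟨h3, h4⟩ := hcop.wronskian_eq_zero_iff.1 hw0
  have h5 := derivative_eq_zero.1 h3
  have h6 := derivative_eq_zero.1 h4
  rw [h5, h6] at hmax
  simp at hmax
  omega

/-- there is a critical point -/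
theorem exists_crit (hd : 2 ≤ d) {x : CV d} (hx : ND x) : ∃ c : ℂ × ℂ, c ≠ 0 ∧ wr x c = 0 := by
  obtain ⟨W, hW0, hW1, hW2, hW3⟩ := wr_poly hd hx
  by_cases h : wr x (1, 0) = 0
  · exact ⟨(1, 0), fun h' => one_ne_zero (congrArg Prod.fst h'), h⟩
  · have h1 : W.natDegree ≠ 0 := by
      have : 2 * d - 2 ≤ W.natDegree := le_natDegree_of_ne_zero (by rw [hW3]; exact h)
      omega
    obtain ⟨ζ, hζ⟩ := Complex.exists_root (f := W) (by
      rw [← natDegree_pos_iff_degree_pos]; omega)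
    refine ⟨(ζ, 1), fun h' => one_ne_zero (congrArg Prod.snd h'), ?_⟩
    rw [← hW2]
    exact hζ

/-- representatives of the critical points -/
theorem exists_Cr (hd : 2 ≤ d) {x : CV d} (hx : ND x) : ∃ Cr : Finset (ℂ × ℂ),
    (∀ c ∈ Cr, c ≠ 0 ∧ wr x c = 0) ∧
    ∀ p : ℂ × ℂ, p ≠ 0 → wr x p = 0 → ∃ c ∈ Cr, ∃ a : ℂ, a ≠ 0 ∧ p = a • c := by
  classical
  obtain ⟨W, hW0, hW1, hW2, hW3⟩ := wr_poly hd hx
  have hhom := (WR d x hd).1
  refine ⟨((W.roots.toFinset.image fun ζ => ((ζ, 1) : ℂ × ℂ)) ∪ {(1, 0)}).filter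
    fun c => wr x c = 0, ?_, ?_⟩
  · intro c hc
    rw [Finset.mem_filter, Finset.mem_union, Finset.mem_image, Finset.mem_singleton] at hc
    refine ⟨?_, hc.2⟩
    rcases hc.1 with ⟨ζ, -, rfl⟩ | rfl
    · exact fun h' => one_ne_zero (congrArg Prod.snd h')
    · exact fun h' => one_ne_zero (congrArg Prod.fst h')
  · intro p hp hwp
    by_cases h2 : p.2 = 0
    · have h1 : p.1 ≠ 0 := fun h1 => hp (Prod.ext h1 h2)
      have e : p = p.1 • ((1, 0) : ℂ × ℂ) := by
        apply Prod.ext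
        · simp
        · simp [h2]
      refine ⟨(1, 0), ?_, p.1, h1, e⟩
      rw [Finset.mem_filter]
      refine ⟨Finset.mem_union_right _ (Finset.mem_singleton_self _), ?_⟩
      rw [e, hhom] at hwp
      exact (mul_eq_zero.1 hwp).resolve_left (pow_ne_zero _ h1)
    · have e : p = p.2 • ((p.1 / p.2, 1) : ℂ × ℂ) := by
        apply Prod.ext
        · simp only [Prod.smul_fst, smul_eq_mul]; field_simp
        · simp
      have h3 : wr x (p.1 / p.2, 1) = 0 := by
        rw [e, hhom] at hwp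
        exact (mul_eq_zero.1 hwp).resolve_left (pow_ne_zero _ h2)
      refine ⟨(p.1 / p.2, 1), ?_, p.2, h2, e⟩
      rw [Finset.mem_filter]
      refine ⟨Finset.mem_union_left _ (Finset.mem_image.2 ⟨p.1 / p.2, ?_, rfl⟩), h3⟩
      rw [Multiset.mem_toFinset, mem_roots hW0, IsRoot, hW2]
      exact h3

/-- the lift is projectively surjective -/
theorem hF_surj (hd : 2 ≤ d) {x : CV d} (hx : ND x) (w : ℂ × ℂ) :
    ∃ p : ℂ × ℂ, p ≠ 0 ∧ cr (hF x p) w = 0 := by
  obtain ⟨hcop, hmax, hco, hhi, -⟩ := (PQ SP d (by omega)).1 x hx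
  set G : ℂ[X] := C w.2 * pol x 0 - C w.1 * pol x 1 with hG
  have hGe : ∀ ζ : ℂ, G.eval ζ = cr (hF x (ζ, 1)) w := by
    intro ζ
    rw [PQ.hF_one, hG]
    simp only [eval_sub, eval_mul, eval_C, cr]
    ring
  have hGc : G.coeff d = cr (hF x (1, 0)) w := by
    rw [PQ.hF_inf, hG]
    have e0 := hco 0 (Fin.last d)
    have e1 := hco 1 (Fin.last d)
    simp only [Fin.val_last] at e0 e1
    rw [coeff_sub, coeff_C_mul, coeff_C_mul, e0, e1]
    simp only [cr]
    ring
  by_cases h : cr (hF x (1, 0)) w = 0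
  · exact ⟨(1, 0), fun h' => one_ne_zero (congrArg Prod.fst h'), h⟩
  · have h1 : d ≤ G.natDegree := le_natDegree_of_ne_zero (by rw [hGc]; exact h)
    obtain ⟨ζ, hζ⟩ := Complex.exists_root (f := G) (by
      rw [← natDegree_pos_iff_degree_pos]; omega)
    refine ⟨(ζ, 1), fun h' => one_ne_zero (congrArg Prod.snd h'), ?_⟩
    rw [← hGe]
    exact hζ

theorem it_surj (hd : 2 ≤ d) {x : CV d} (hx : ND x) (n : ℕ) {w : ℂ × ℂ} (hw : w ≠ 0) :
    ∃ p : ℂ × ℂ, p ≠ 0 ∧ cr ((hF x)^[n] p) w = 0 := by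
  induction n generalizing w with
  | zero => exact ⟨w, hw, cr_self w⟩
  | succ n ih =>
    obtain ⟨q, hq, hqw⟩ := hF_surj hd hx w
    obtain ⟨p, hp, hpq⟩ := ih hq
    refine ⟨p, hp, ?_⟩
    rw [Function.iterate_succ_apply']
    have h1 := cr_iter x 1 (hx.iter_ne n hp) hq hpq
    simp only [Function.iterate_one] at h1
    exact cr_trans (fun h => hq (hx q h)) h1 hqw

end Pool.Agent.W739.RC
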