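import Mathlib
import Pool.Agent.W739.RC.Lft
import Pool.Agent.W739.PC.EH

/-! Trapping cones: all their points are attracted by attracting cycles. -/

set_option autoImplicit false

open Topology Filter Metric Set
open scoped OnePoint

namespace Pool.Agent.W739.RC

open Pool.Agent.H790R3.RB
open Pool.Agent.W739.PC (Trap)

theorem cr_le (p q : ℂ × ℂ) : ‖cr p q‖ ≤ 2 * ‖p‖ * ‖q‖ := by
  unfold cr
  refine (norm_sub_le _ _).trans ?_
  rw [norm_mul, norm_mul]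
  have h1 := mul_le_mul (norm_fst_le p) (norm_snd_le q) (norm_nonneg _) (norm_nonneg _)
  have h2 := mul_le_mul (norm_snd_le p) (norm_fst_le q) (norm_nonneg _) (norm_nonneg _)
  linarith

theorem exists_frame {v : ℂ × ℂ} (hv : v ≠ 0) : ∃ f : ℂ × ℂ, cr v f = 1 ∧ ‖f‖ * ‖v‖ = 1 := by
  have hv' : ‖v‖ ≠ 0 := norm_ne_zero_iff.2 hv
  rcases le_total ‖v.2‖ ‖v.1‖ with h | h
  · have h1 : ‖v‖ = ‖v.1‖ := by rw [Prod.norm_def]; exact max_eq_left h
    have h2 : v.1 ≠ 0 := by rw [← norm_ne_zero_iff, ← h1]; exact hv'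
    refine ⟨(0, v.1⁻¹), ?_, ?_⟩
    · simp [cr, h2]
    · rw [h1, Prod.norm_def]
      simp only [norm_zero, norm_inv]
      rw [max_eq_right (by positivity), inv_mul_cancel₀ (norm_ne_zero_iff.2 h2)]
  · have h1 : ‖v‖ = ‖v.2‖ := by rw [Prod.norm_def]; exact max_eq_right h
    have h2 : v.2 ≠ 0 := by rw [← norm_ne_zero_iff, ← h1]; exact hv'
    refine ⟨(-v.2⁻¹, 0), ?_, ?_⟩
    · simp [cr, h2]
    · rw [h1, Prod.norm_def]
      simp only [norm_zero, norm_neg, norm_inv]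
      rw [max_eq_left (by positivity), inv_mul_cancel₀ (norm_ne_zero_iff.2 h2)]

theorem decomp {u f : ℂ × ℂ} (h : cr u f = 1) (p : ℂ × ℂ) : p = cr p f • u + cr u p • f := by
  unfold cr at *
  apply Prod.ext
  · simp only [Prod.fst_add, Prod.smul_fst, smul_eq_mul]
    linear_combination (-p.1) * h
  · simp only [Prod.snd_add, Prod.smul_snd, smul_eq_mul]
    linear_combination (-p.2) * h

theorem cr_add_left (p p' q : ℂ × ℂ) : cr (p + p') q = cr p q + cr p' q := by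
  simp only [cr, Prod.fst_add, Prod.snd_add]; ring

theorem cr_add_right (p q q' : ℂ × ℂ) : cr p (q + q') = cr p q + cr p q' := by
  simp only [cr, Prod.fst_add, Prod.snd_add]; ring

/-- the shear along `u` -/
def Sh (u : ℂ × ℂ) (s : ℂ) : E2 := fun i j =>
  I2 i j + s * ((if i = 0 then u.1 else u.2) * (if j = 0 then -u.2 else u.1))

theorem mv_Sh (u : ℂ × ℂ) (s : ℂ) (p : ℂ × ℂ) : mv (Sh u s) p = p + (s * cr u p) • u := by
  unfold mv Sh I2 cr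
  apply Prod.ext
  · simp
    ring
  · simp
    ring

theorem Sh_norm (u : ℂ × ℂ) (s : ℂ) : ‖Sh u s - I2‖ ≤ ‖s‖ * ‖u‖ ^ 2 := by
  have hnn : 0 ≤ ‖s‖ * ‖u‖ ^ 2 := by positivity
  refine (pi_norm_le_iff_of_nonneg hnn).2 fun i => (pi_norm_le_iff_of_nonneg hnn).2 fun j => ?_
  have e : (Sh u s - I2) i j = s * ((if i = 0 then u.1 else u.2) * (if j = 0 then -u.2 else u.1)) := by
    simp only [Pi.sub_apply, Sh]; ring
  rw [e, norm_mul, norm_mul, sq]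
  have h1 : ‖(if i = 0 then u.1 else u.2)‖ ≤ ‖u‖ := by
    split_ifs
    · exact norm_fst_le u
    · exact norm_snd_le u
  have h2 : ‖(if j = 0 then -u.2 else u.1)‖ ≤ ‖u‖ := by
    split_ifs
    · rw [norm_neg]; exact norm_snd_le u
    · exact norm_fst_le u
  gcongr

theorem Sh_mem {u : ℂ × ℂ} {s : ℂ} {δ : ℝ} (h : ‖s‖ * ‖u‖ ^ 2 < δ) : Sh u s ∈ Bl δ :=
  (Sh_norm u s).trans_lt h

/-- small rotations -/
theorem reach1 {δ : ℝ} (hδ : 0 < δ) (hδ1 : δ ≤ 1) {v w : ℂ × ℂ} (hv : v ≠ 0) (hw : w ≠ 0)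
    (h : ‖cr v w‖ < δ / 2 * ‖v‖ * ‖w‖) : ∃ M ∈ Bl δ, ∃ a : ℂ, a ≠ 0 ∧ mv M v = a • w := by
  obtain ⟨f, hf, hfn⟩ := exists_frame hv
  have hv' : 0 < ‖v‖ := norm_pos_iff.2 hv
  have hw' : 0 < ‖w‖ := norm_pos_iff.2 hw
  set α := cr w f with hα
  set β := cr v w with hβ
  have hdec : w = α • v + β • f := decomp hf w
  have h1 : ‖w‖ ≤ ‖α‖ * ‖v‖ + ‖β‖ * ‖f‖ := by
    calc ‖w‖ = ‖α • v + β • f‖ := by rw [← hdec]
      _ ≤ ‖α • v‖ + ‖β • f‖ := norm_add_le _ _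
      _ = _ := by rw [norm_smul, norm_smul]
  have h2 : ‖β‖ * ‖f‖ ≤ δ / 2 * ‖w‖ := by
    have : ‖β‖ * ‖f‖ ≤ δ / 2 * ‖v‖ * ‖w‖ * ‖f‖ := by gcongr
    calc ‖β‖ * ‖f‖ ≤ δ / 2 * ‖v‖ * ‖w‖ * ‖f‖ := this
      _ = δ / 2 * ‖w‖ * (‖f‖ * ‖v‖) := by ring
      _ = δ / 2 * ‖w‖ := by rw [hfn, mul_one]
  have h3 : ‖w‖ / 2 ≤ ‖α‖ * ‖v‖ := by nlinarith
  have hα0 : α ≠ 0 := by
    intro h0
    rw [h0, norm_zero, zero_mul] at h3
    linarith
  have hα' : 0 < ‖α‖ := norm_pos_iff.2 hα0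
  have hfv : cr f v = -1 := by rw [cr_comm, hf]
  refine ⟨Sh f (-(β / α)), Sh_mem ?_, α⁻¹, inv_ne_zero hα0, ?_⟩
  · rw [norm_neg, norm_div]
    have hf' : ‖f‖ = 1 / ‖v‖ := by field_simp; exact hfn
    rw [hf', div_pow, one_pow]
    have : ‖β‖ < δ * (‖α‖ * ‖v‖ ^ 2) := by
      calc ‖β‖ < δ / 2 * ‖v‖ * ‖w‖ := h
        _ ≤ δ / 2 * ‖v‖ * (2 * (‖α‖ * ‖v‖)) := by gcongr; linarith
        _ = δ * (‖α‖ * ‖v‖ ^ 2) := by ring
    rw [div_mul_div_comm, mul_one, div_lt_iff₀ (by positivity)]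
    exact this
  · rw [mv_Sh, hfv]
    conv_rhs => rw [hdec]
    rw [smul_add, smul_smul, smul_smul, inv_mul_cancel₀ hα0, one_smul]
    congr 2
    field_simp

/-- directions near `e` -/
theorem near {e : ℂ × ℂ} (he : e ≠ 0) {ρ : ℝ} (hρ : 0 < ρ) : ∃ r : ℝ, 0 < r ∧ ∀ p : ℂ × ℂ, p ≠ 0 →
    ‖cr e p‖ < r * ‖p‖ → ∃ a : ℂ, a ≠ 0 ∧ a • p ∈ ball e ρ := by
  obtain ⟨f, hf, hfn⟩ := exists_frame he
  have he' : 0 < ‖e‖ := norm_pos_iff.2 he
  refine ⟨min (‖e‖ / 2) (ρ / 4), by positivity, fun p hp h => ?_⟩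
  set r := min (‖e‖ / 2) (ρ / 4) with hr
  have hr1 : r ≤ ‖e‖ / 2 := min_le_left _ _
  have hr2 : r ≤ ρ / 4 := min_le_right _ _
  have hr0 : 0 < r := by positivity
  have hp' : 0 < ‖p‖ := norm_pos_iff.2 hp
  set α := cr p f with hα
  set β := cr e p with hβ
  have hdec : p = α • e + β • f := decomp hf p
  have hf' : ‖f‖ = 1 / ‖e‖ := by field_simp; exact hfn
  have hf0 : 0 < ‖f‖ := by rw [hf']; positivity
  have h1 : ‖p‖ ≤ ‖α‖ * ‖e‖ + ‖β‖ * ‖f‖ := by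
    calc ‖p‖ = ‖α • e + β • f‖ := by rw [← hdec]
      _ ≤ ‖α • e‖ + ‖β • f‖ := norm_add_le _ _
      _ = _ := by rw [norm_smul, norm_smul]
  have h2 : ‖β‖ * ‖f‖ ≤ ‖p‖ / 2 := by
    calc ‖β‖ * ‖f‖ ≤ (r * ‖p‖) * ‖f‖ := by gcongr
      _ ≤ (‖e‖ / 2 * ‖p‖) * ‖f‖ := by gcongr
      _ = ‖p‖ / 2 * (‖f‖ * ‖e‖) := by ring
      _ = ‖p‖ / 2 := by rw [hfn, mul_one]
  have h3 : ‖p‖ ≤ 2 * (‖α‖ * ‖e‖) := by linarith
  have hα0 : α ≠ 0 := by
    intro h0
    rw [h0, norm_zero, zero_mul] at h3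
    linarith
  have hα' : 0 < ‖α‖ := norm_pos_iff.2 hα0
  refine ⟨α⁻¹, inv_ne_zero hα0, ?_⟩
  rw [mem_ball, dist_eq_norm]
  have e1 : α⁻¹ • p - e = (β / α) • f := by
    conv_lhs => rw [hdec]
    rw [smul_add, smul_smul, smul_smul, inv_mul_cancel₀ hα0, one_smul, add_sub_cancel_left]
    congr 1
    field_simp
  rw [e1, norm_smul, norm_div]
  rw [div_mul_eq_mul_div, div_lt_iff₀ hα']
  calc ‖β‖ * ‖f‖ < (r * ‖p‖) * ‖f‖ := by gcongr
    _ ≤ (ρ / 4 * (2 * (‖α‖ * ‖e‖))) * ‖f‖ := by gcongr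
    _ = ρ / 2 * ‖α‖ * (‖f‖ * ‖e‖) := by ring
    _ = ρ / 2 * ‖α‖ := by rw [hfn, mul_one]
    _ ≤ ρ * ‖α‖ := by nlinarith

/-- `c` is attracted by a topologically attracting cycle of `S` -/
def AT (S : OnePoint ℂ → OnePoint ℂ) (c : OnePoint ℂ) : Prop :=
  ∃ z : OnePoint ℂ, ∃ n : ℕ, 0 < n ∧ S^[n] z = z ∧
    (∃ U ∈ nhds z, ∀ w ∈ U, Filter.Tendsto (fun k : ℕ => S^[n * k] w) Filter.atTop (nhds z)) ∧
    Filter.Tendsto (fun k : ℕ => S^[n * k] c) Filter.atTop (nhds z)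

theorem iter_per {X : Type} {S : X → X} {z : X} {n : ℕ} (h : S^[n] z = z) (k : ℕ) :
    S^[n * k] z = z := by
  rw [Function.iterate_mul]
  exact Function.iterate_fixed h k

theorem AT_of_iter {S : OnePoint ℂ → OnePoint ℂ} (hS : Continuous S) {c : OnePoint ℂ} {l : ℕ}
    (h : AT S (S^[l] c)) : AT S c := by
  obtain ⟨z, n, hn, hz, ⟨U, hU, hUa⟩, hc⟩ := h
  -- `n * l` steps
  set j : ℕ := n * l - l with hj
  have hjl : j + l = n * l := by
    have : l ≤ n * l := Nat.le_mul_of_pos_left l hn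
    omega
  have hcont : ∀ m, Continuous (S^[m]) := fun m => hS.iterate m
  refine ⟨S^[j] z, n, hn, ?_, ⟨(S^[l]) ⁻¹' U, ?_, ?_⟩, ?_⟩
  · rw [← Function.iterate_add_apply, add_comm, Function.iterate_add_apply, hz]
  · apply (hcont l).continuousAt.preimage_mem_nhds
    rw [← Function.iterate_add_apply, add_comm, hjl, iter_per hz]
    exact hU
  · intro w hw
    have h1 := ((hcont j).continuousAt.tendsto (x := z)).comp (hUa _ hw)
    refine (tendsto_add_atTop_iff_nat (f := fun k : ℕ => S^[n * k] w) l).1 (h1.congr fun k => ?_)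
    rw [Function.comp_apply, ← Function.iterate_add_apply, ← Function.iterate_add_apply]
    congr 2
    rw [mul_add]
    omega
  · have h1 := ((hcont j).continuousAt.tendsto (x := z)).comp hc
    refine (tendsto_add_atTop_iff_nat (f := fun k : ℕ => S^[n * k] c) l).1 (h1.congr fun k => ?_)
    rw [Function.comp_apply, ← Function.iterate_add_apply, ← Function.iterate_add_apply]
    congr 2
    rw [mul_add]
    omega

/-- trapping cones -/
structure PT (F : ℂ × ℂ → ℂ × ℂ) (W : Set (ℂ × ℂ)) : Prop where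
  ne : ∀ p ∈ W, p ≠ 0
  cone : ∀ p ∈ W, ∀ a : ℂ, a ≠ 0 → a • p ∈ W
  mar : ∃ δ : ℝ, 0 < δ ∧ ∀ p ∈ W, ∀ M ∈ Bl δ, mv M (F p) ∈ W
  off : ∃ e : ℂ × ℂ, e ≠ 0 ∧ ∃ r : ℝ, 0 < r ∧ ∀ p ∈ W, r * ‖p‖ ≤ ‖cr e p‖

theorem attr {F : ℂ × ℂ → ℂ × ℂ} (hFd : Differentiable ℂ F) {S : OnePoint ℂ → OnePoint ℂ}
    (hSF : ∀ p, p ≠ 0 → S (pr p) = pr (F p)) {W : Set (ℂ × ℂ)} (h : PT F W) {p : ℂ × ℂ}
    (hp : p ∈ W) : AT S (pr p) := by
  obtain ⟨hne, hcone, ⟨δ, hδ, hmar⟩, ⟨e, he, r, hr, hoff⟩⟩ := h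
  obtain ⟨f, hf, hfn⟩ := exists_frame he
  have he' : 0 < ‖e‖ := norm_pos_iff.2 he
  have hf0 : 0 < ‖f‖ := by
    rcases (norm_nonneg f).lt_or_eq with h | h
    · exact h
    · rw [← h, zero_mul] at hfn; exact absurd hfn zero_ne_one
  have hFW : ∀ p ∈ W, F p ∈ W := fun p hp => by
    have := hmar p hp I2 (I2_mem hδ)
    rwa [mv_I2] at this
  have hcre : ∀ p ∈ W, cr e p ≠ 0 := by
    intro p hp h0
    have h1 := hoff p hp
    rw [h0, norm_zero] at h1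
    have h2 : 0 < ‖p‖ := norm_pos_iff.2 (hne p hp)
    nlinarith
  -- the chart
  set v : ℂ → ℂ × ℂ := fun ζ => ζ • e + f with hv
  have hcrev : ∀ ζ, cr e (v ζ) = 1 := by
    intro ζ
    rw [hv]
    simp only
    rw [cr_add_right, cr_smul_right, cr_self, mul_zero, zero_add, hf]
  have hcrvf : ∀ ζ, cr (v ζ) f = ζ := by
    intro ζ
    rw [hv]
    simp only
    rw [cr_add_left, cr_smul_left, cr_self, hf, mul_one, add_zero]
  have hvne : ∀ ζ, v ζ ≠ 0 := by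
    intro ζ h0
    have := hcrev ζ
    rw [h0] at this
    simp [cr] at this
  have hchart : ∀ q : ℂ × ℂ, cr e q ≠ 0 → q = cr e q • v (cr q f / cr e q) := by
    intro q hq
    conv_lhs => rw [decomp hf q]
    rw [hv]
    simp only
    rw [smul_add, smul_smul, mul_div_cancel₀ _ hq]
  set O : Set ℂ := {ζ | v ζ ∈ W} with hO
  set g : ℂ → ℂ := fun ζ => cr (F (v ζ)) f / cr e (F (v ζ)) with hg
  have hT : Trap O g (2 * ‖f‖ / r) (δ / ‖e‖ ^ 2) := by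
    refine ⟨by positivity, by positivity, ?_, ?_, ?_⟩
    · intro ζ hζ
      rw [mem_closedBall_zero_iff]
      have h1 := hoff _ hζ
      rw [hcrev, norm_one] at h1
      have h2 := cr_le (v ζ) f
      rw [hcrvf] at h2
      have h3 : ‖v ζ‖ ≤ 1 / r := by rw [le_div_iff₀ hr]; linarith
      calc ‖ζ‖ ≤ 2 * ‖v ζ‖ * ‖f‖ := h2
        _ ≤ 2 * (1 / r) * ‖f‖ := by gcongr
        _ = 2 * ‖f‖ / r := by ring
    · intro ζ hζ
      have h1 : DifferentiableAt ℂ (fun ζ : ℂ => F (v ζ)) ζ := by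
        apply DifferentiableAt.comp ζ (hFd _)
        exact (differentiableAt_id.smul_const e).add_const f
      have h2 : cr e (F (v ζ)) ≠ 0 := hcre _ (hFW _ hζ)
      have h3 : DifferentiableAt ℂ (fun ζ : ℂ => cr (F (v ζ)) f) ζ := by
        unfold cr
        exact (h1.fst.mul_const _).sub (h1.snd.mul_const _)
      have h4 : DifferentiableAt ℂ (fun ζ : ℂ => cr e (F (v ζ))) ζ := by
        unfold cr
        exact (h1.snd.const_mul _).sub (h1.fst.const_mul _)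
      exact h3.div h4 h2
    · intro ζ hζ s hs
      have h1 : cr e (F (v ζ)) ≠ 0 := hcre _ (hFW _ hζ)
      have h2 : Sh e s ∈ Bl δ := by
        apply Sh_mem
        rw [lt_div_iff₀ (by positivity)] at hs
        exact hs
      have h3 := hmar _ hζ _ h2
      rw [mv_Sh] at h3
      have h4 := hcone _ h3 (cr e (F (v ζ)))⁻¹ (inv_ne_zero h1)
      have h5 : (cr e (F (v ζ)))⁻¹ • (F (v ζ) + (s * cr e (F (v ζ))) • e) = v (g ζ + s) := by
        conv_lhs => rw [decomp hf (F (v ζ))]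
        have h6 : cr e (cr (F (v ζ)) f • e + cr e (F (v ζ)) • f) = cr e (F (v ζ)) := by
          rw [← decomp hf (F (v ζ))]
        have h7 : cr (cr (F (v ζ)) f • e + cr e (F (v ζ)) • f) f = cr (F (v ζ)) f := by
          rw [← decomp hf (F (v ζ))]
        rw [h6, hv]
        simp only [hg]
        rw [smul_add, smul_add, smul_smul, smul_smul, smul_smul, inv_mul_cancel₀ h1, one_smul,
          add_smul]
        have e1 : (cr e (F (v ζ)))⁻¹ * (s * cr e (F (v ζ))) = s := by field_simp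
        have e2 : (cr e (F (v ζ)))⁻¹ * cr (F (v ζ)) f = cr (F (v ζ)) f / cr e (F (v ζ)) := by
          field_simp
        rw [e1, e2]
        abel
      rw [h5] at h4
      exact h4
  -- transport
  obtain ⟨h, hh, -⟩ := MOB SP e.1 f.1 e.2 f.2 (by
    have := hf
    unfold cr at this
    intro h0
    rw [show e.1 * f.2 - e.2 * f.1 = e.1 * f.2 - f.1 * e.2 by ring, h0] at this
    exact zero_ne_one this)
  have hψ : ∀ ζ : ℂ, h (ζ : OnePoint ℂ) = pr (v ζ) := by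
    intro ζ
    have e1 : pr (ζ, 1) = (ζ : OnePoint ℂ) := by
      rw [SP.pr_ne (by simp)]; simp
    rw [← e1, hh (ζ, 1) (fun h' => one_ne_zero (congrArg Prod.snd h'))]
    congr 1
    rw [hv]
    apply Prod.ext
    · simp only [Prod.fst_add, Prod.smul_fst, smul_eq_mul]; ring
    · simp only [Prod.snd_add, Prod.smul_snd, smul_eq_mul]; ring
  have hψc : Continuous fun ζ : ℂ => pr (v ζ) := by
    have : (fun ζ : ℂ => pr (v ζ)) = h ∘ ((↑) : ℂ → OnePoint ℂ) := funext fun ζ => (hψ ζ).symm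
    rw [this]
    exact h.continuous.comp OnePoint.continuous_coe
  have hpr : ∀ q : ℂ × ℂ, q ≠ 0 → cr e q ≠ 0 → pr q = pr (v (cr q f / cr e q)) := by
    intro q hq0 hq
    rw [SP.pr_eq_iff hq0 (hvne _)]
    refine (congrArg (fun t => cr t (v (cr q f / cr e q))) (hchart q hq)).trans ?_
    rw [cr_smul_left, cr_self, mul_zero]
  have hstep : ∀ ζ ∈ O, S (pr (v ζ)) = pr (v (g ζ)) := by
    intro ζ hζ
    rw [hSF _ (hvne ζ), hpr _ (hne _ (hFW _ hζ)) (hcre _ (hFW _ hζ))]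
  have hiter : ∀ (n : ℕ), ∀ ζ ∈ O, S^[n] (pr (v ζ)) = pr (v (g^[n] ζ)) := by
    intro n
    induction n with
    | zero => intro ζ _; rfl
    | succ n ih =>
      intro ζ hζ
      rw [Function.iterate_succ_apply', ih ζ hζ, hstep _ (hT.iter_mem hζ n),
        Function.iterate_succ_apply']
  set ζ₀ : ℂ := cr p f / cr e p with hζ₀
  have hζ₀O : ζ₀ ∈ O := by
    have h1 := hcone p hp (cr e p)⁻¹ (inv_ne_zero (hcre p hp))
    have h2 : (cr e p)⁻¹ • p = v ζ₀ := by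
      conv_lhs => rw [hchart p (hcre p hp)]
      have e1 : cr e (cr e p • v (cr p f / cr e p)) = cr e p := by rw [← hchart p (hcre p hp)]
      rw [smul_smul, e1, inv_mul_cancel₀ (hcre p hp), one_smul]
    rw [h2] at h1
    exact h1
  obtain ⟨q, a, hq, hlim, hatt⟩ := hT.exists_att hζ₀O
  have ha := hatt 0
  simp only [Function.iterate_zero_apply] at ha
  refine ⟨pr (v a), q, hq, ?_, ⟨(fun ζ : ℂ => pr (v ζ)) '' ball a (δ / ‖e‖ ^ 2 / 2), ?_, ?_⟩, ?_⟩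
  · rw [hiter q a ha.mem, ha.per]
  · have e1 : (fun ζ : ℂ => pr (v ζ)) '' ball a (δ / ‖e‖ ^ 2 / 2) =
        h '' (((↑) : ℂ → OnePoint ℂ) '' ball a (δ / ‖e‖ ^ 2 / 2)) := by
      rw [image_image]
      exact image_congr fun ζ _ => (hψ ζ).symm
    rw [e1]
    apply IsOpen.mem_nhds
    · exact h.isOpenMap _ (OnePoint.isOpenEmbedding_coe.isOpenMap _ isOpen_ball)
    · exact ⟨(a : OnePoint ℂ), ⟨a, mem_ball_self (by positivity), rfl⟩, hψ a⟩
  · rintro _ ⟨ζ, hζ, rfl⟩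
    have h1 := (hψc.tendsto a).comp (ha.att ζ hζ)
    refine h1.congr fun k => ?_
    rw [Function.comp_apply, hiter _ ζ (ha.sub hζ)]
  · have h1 := (hψc.tendsto a).comp hlim
    refine h1.congr fun k => ?_
    rw [Function.comp_apply, hpr p (hne p hp) (hcre p hp), hiter _ ζ₀ hζ₀O]

end Pool.Agent.W739.RC
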