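import Mathlib
import Pool.Agent.W739.RC.Tr

/-! Reachable cones and invariant cones. -/

set_option autoImplicit false

open Topology Filter Metric Set
open scoped OnePoint

namespace Pool.Agent.W739.RC

open Pool.Agent.H790R3.RB

variable {d : ℕ}

theorem Ph_last (x : CV d) (u : List E2) (M : E2) (p : ℂ × ℂ) :
    Ph x (u ++ [M]) p = mv M (hF x (Ph x u p)) := by
  rw [Ph_append]; rfl

theorem Ph_single (x : CV d) (M : E2) (p : ℂ × ℂ) : Ph x [M] p = mv M (hF x p) := rfl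

/-- modification of the last letter -/
theorem mod_last (x : CV d) {ε : ℝ} {u : List E2} (hu : Ok ε u) (hne : u ≠ []) :
    ∃ δ : ℝ, 0 < δ ∧ ∀ M ∈ Bl δ, ∃ u' : List E2, Ok ε u' ∧ u'.length = u.length ∧
      ∀ p, Ph x u' p = mv M (Ph x u p) := by
  obtain ⟨v, M₀, rfl⟩ : ∃ v M₀, u = v ++ [M₀] :=
    ⟨u.dropLast, u.getLast hne, (List.dropLast_append_getLast hne).symm⟩
  obtain ⟨δ, hδ, h⟩ := Bl_marg (hu M₀ (by simp))
  refine ⟨δ, hδ, fun M hM => ⟨v ++ [mm M M₀], hu.left.app (ok_single (h M hM)), by simp, ?_⟩⟩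
  intro p
  rw [Ph_last, Ph_last, mv_mm]

theorem mod_last_unif {ε ε' : ℝ} (hε : ε' < ε) :
    ∃ δ : ℝ, 0 < δ ∧ ∀ (x : CV d) (u : List E2), Ok ε' u → u ≠ [] → ∀ M ∈ Bl δ,
      ∃ u' : List E2, Ok ε u' ∧ u'.length = u.length ∧ ∀ p, Ph x u' p = mv M (Ph x u p) := by
  obtain ⟨δ, hδ, h⟩ := Bl_marg_unif hε
  refine ⟨δ, hδ, fun x u hu hne M hM => ?_⟩
  obtain ⟨v, M₀, rfl⟩ : ∃ v M₀, u = v ++ [M₀] :=
    ⟨u.dropLast, u.getLast hne, (List.dropLast_append_getLast hne).symm⟩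
  refine ⟨v ++ [mm M M₀], (hu.left.mono hε.le).app (ok_single (h M₀ (hu M₀ (by simp)) M hM)),
    by simp, ?_⟩
  intro p
  rw [Ph_last, Ph_last, mv_mm]

/-- the vectors in the directions reached from `p` -/
def Rc (x : CV d) (ε : ℝ) (p : ℂ × ℂ) : Set (ℂ × ℂ) :=
  {w | w ≠ 0 ∧ ∃ u : List E2, u ≠ [] ∧ Ok ε u ∧ cr (Ph x u p) w = 0}

/-- invariant cones -/
structure IC (x : CV d) (ε : ℝ) (W : Set (ℂ × ℂ)) : Prop where
  ne : ∀ p ∈ W, p ≠ 0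
  cone : ∀ p ∈ W, ∀ a : ℂ, a ≠ 0 → a • p ∈ W
  step : ∀ p ∈ W, ∀ M ∈ Bl ε, mv M (hF x p) ∈ W

theorem IC.word {x : CV d} {ε : ℝ} {W : Set (ℂ × ℂ)} (h : IC x ε W) {u : List E2} (hu : Ok ε u)
    {p : ℂ × ℂ} (hp : p ∈ W) : Ph x u p ∈ W := by
  induction u generalizing p with
  | nil => exact hp
  | cons M u ih =>
    exact ih (fun M' hM' => hu M' (List.mem_cons_of_mem _ hM')) (h.step p hp M (hu M List.mem_cons_self))

theorem IC.par {x : CV d} {ε : ℝ} {W : Set (ℂ × ℂ)} (h : IC x ε W) {p q : ℂ × ℂ} (hp : p ∈ W)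
    (hq : q ≠ 0) (hc : cr q p = 0) : q ∈ W := by
  obtain ⟨a, ha, rfl⟩ := (cr_eq_zero_iff hq (h.ne p hp)).1 hc
  exact h.cone p hp a ha

theorem IC.mar {x : CV d} {ε : ℝ} {W : Set (ℂ × ℂ)} (h : IC x ε W) {u : List E2} (hu : Ok ε u)
    (hne : u ≠ []) : ∃ δ : ℝ, 0 < δ ∧ ∀ p ∈ W, ∀ M ∈ Bl δ, mv M (Ph x u p) ∈ W := by
  obtain ⟨δ, hδ, h1⟩ := mod_last x hu hne
  refine ⟨δ, hδ, fun p hp M hM => ?_⟩
  obtain ⟨u', hu', -, h2⟩ := h1 M hM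
  rw [← h2]
  exact h.word hu' hp

theorem IC.off (hd : 2 ≤ d) {x : CV d} (hx : ND x) {ε : ℝ} (hε : 0 < ε) (hε1 : ε ≤ 1 / 2)
    {W : Set (ℂ × ℂ)} (h : IC x ε W) (hpr : ∃ e : ℂ × ℂ, e ≠ 0 ∧ e ∉ W) :
    ∃ e : ℂ × ℂ, e ≠ 0 ∧ ∃ r : ℝ, 0 < r ∧ ∀ p ∈ W, r * ‖p‖ ≤ ‖cr e p‖ := by
  obtain ⟨e₀, he₀, he₀W⟩ := hpr
  obtain ⟨e, he, hee⟩ := hF_surj hd hx e₀
  have hFe : hF x e ≠ 0 := fun h => he (hx e h)
  have hcF : Continuous (hF x) := (hF_differentiable x).continuous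
  -- an open set disjoint from `W`
  have h1 : IsOpen {q : ℂ × ℂ | ‖cr (hF x q) e₀‖ < ε / 2 * ‖hF x q‖ * ‖e₀‖} := by
    apply isOpen_lt
    · unfold cr
      fun_prop
    · fun_prop
  have h2 : e ∈ {q : ℂ × ℂ | ‖cr (hF x q) e₀‖ < ε / 2 * ‖hF x q‖ * ‖e₀‖} := by
    show ‖cr (hF x e) e₀‖ < _
    rw [hee, norm_zero]
    have := norm_pos_iff.2 hFe
    have := norm_pos_iff.2 he₀
    positivity
  obtain ⟨ρ, hρ, h3⟩ := Metric.isOpen_iff.1 h1 e h2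
  obtain ⟨r, hr, h4⟩ := near he hρ
  refine ⟨e, he, r, hr, fun p hp => ?_⟩
  by_contra hlt
  rw [not_le] at hlt
  obtain ⟨a, ha, h5⟩ := h4 p (h.ne p hp) hlt
  have h6 := h3 h5
  have h7 : a • p ∈ W := h.cone p hp a ha
  obtain ⟨M, hM, b, hb, h8⟩ := reach1 hε (by linarith) (fun h' => h.ne _ h7 (hx _ h')) he₀ h6
  have h9 := h.step _ h7 M hM
  rw [h8] at h9
  have h10 := h.cone _ h9 b⁻¹ (inv_ne_zero hb)
  rw [smul_smul, inv_mul_cancel₀ hb, one_smul] at h10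
  exact he₀W h10

theorem IC.PT (hd : 2 ≤ d) {x : CV d} (hx : ND x) {ε : ℝ} (hε : 0 < ε) (hε1 : ε ≤ 1 / 2)
    {W : Set (ℂ × ℂ)} (h : IC x ε W) (hpr : ∃ e : ℂ × ℂ, e ≠ 0 ∧ e ∉ W) {u : List E2}
    (hu : Ok ε u) (hne : u ≠ []) : PT (Ph x u) W :=
  ⟨h.ne, h.cone, h.mar hu hne, h.off hd hx hε hε1 hpr⟩

theorem Rc_IC {x : CV d} (hx : ND x) {ε : ℝ} (hε1 : ε ≤ 1 / 2) {p : ℂ × ℂ} (hp : p ≠ 0) :
    IC x ε (Rc x ε p) := by
  refine ⟨fun w hw => hw.1, ?_, ?_⟩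
  · rintro w ⟨hw, u, hu, hok, hc⟩ a ha
    refine ⟨smul_ne_zero ha hw, u, hu, hok, ?_⟩
    rw [cr_smul_right, hc, mul_zero]
  · rintro w ⟨hw, u, hu, hok, hc⟩ M hM
    have hM0 : dt M ≠ 0 := dt_ne (lt_of_lt_of_le hM hε1)
    have hne : Ph x u p ≠ 0 := Ph_ne hx hε1 hok hp
    refine ⟨mv_ne hM0 fun h => hw (hx w h), u ++ [M], by simp, hok.app (ok_single hM), ?_⟩
    rw [Ph_last, cr_mv]
    have h1 := cr_iter x 1 hne hw hc
    simp only [Function.iterate_one] at h1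
    rw [h1, mul_zero]

theorem Rc_open {x : CV d} (hx : ND x) {ε : ℝ} (hε1 : ε ≤ 1 / 2) {p : ℂ × ℂ} (hp : p ≠ 0) :
    IsOpen (Rc x ε p) := by
  rw [isOpen_iff_mem_nhds]
  rintro w ⟨hw, u, hu, hok, hc⟩
  obtain ⟨δ, hδ, h1⟩ := mod_last x hok hu
  have hne : Ph x u p ≠ 0 := Ph_ne hx hε1 hok hp
  set δ' := min δ 1 with hδ'
  have hδ'0 : 0 < δ' := lt_min hδ one_pos
  have h2 : IsOpen {w' : ℂ × ℂ | w' ≠ 0 ∧ ‖cr (Ph x u p) w'‖ < δ' / 2 * ‖Ph x u p‖ * ‖w'‖} := by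
    have h3 : IsOpen {w' : ℂ × ℂ | ‖cr (Ph x u p) w'‖ < δ' / 2 * ‖Ph x u p‖ * ‖w'‖} := by
      apply isOpen_lt
      · unfold cr
        fun_prop
      · fun_prop
    exact isOpen_ne.inter h3
  refine Filter.mem_of_superset (h2.mem_nhds ⟨hw, ?_⟩) ?_
  · show ‖cr (Ph x u p) w‖ < _
    rw [hc, norm_zero]
    have := norm_pos_iff.2 hne
    have := norm_pos_iff.2 hw
    positivity
  · rintro w' ⟨hw', h3⟩
    obtain ⟨M, hM, a, ha, h4⟩ := reach1 hδ'0 (min_le_right _ _) hne hw' h3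
    obtain ⟨u', hu', hl, h5⟩ := h1 M (show ‖M - I2‖ < δ from lt_of_lt_of_le hM (min_le_left _ _))
    refine ⟨hw', u', ?_, hu', ?_⟩
    · intro h0
      rw [h0] at hl
      exact hu (List.length_eq_zero_iff.1 hl.symm)
    · rw [h5, h4, cr_smul_left, cr_self, mul_zero]

/-- From an orbit condition on the critical points to hyperbolicity. -/
theorem hyp_word (hd : 2 ≤ d) {x : CV d} (hx : ND x) {ε : ℝ} (hε1 : ε ≤ 1 / 2) {w : List E2}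
    (hw : Ok ε w) (hgood : ∀ u v : List E2, w = u ++ v → v ≠ [] → ∀ c : ℂ × ℂ, c ≠ 0 →
      wr x c = 0 → ∃ (j : ℕ) (W : Set (ℂ × ℂ)), PT (Ph x w) W ∧ (Ph x w)^[j] (Ph x v c) ∈ W) :
    HypTop (Sg x w) := by
  intro z hz
  obtain ⟨hp1, hp⟩ := SP.pr_hc z
  set p := hc z with hpz
  rw [← hp1] at hz
  obtain ⟨u, v, huv, hv, hwr⟩ := crit_of_not_inj hd hx hε1 hw hp hz
  have hok := hw
  rw [huv] at hok
  obtain ⟨j, W, hW, hj⟩ := hgood u v huv hv (Ph x u p) (Ph_ne hx hε1 hok.left hp) hwr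
  have hSF : ∀ q, q ≠ 0 → Sg x w (pr q) = pr (Ph x w q) := fun q hq => Sg_pr hx hε1 hw hq
  have h1 : Ph x v (Ph x u p) = Ph x w p := by rw [← Ph_append, ← huv]
  rw [h1, ← Function.iterate_succ_apply] at hj
  have h2 := attr (Ph_differentiable x w) hSF hW hj
  have h3 : ∀ k : ℕ, (Sg x w)^[k] (pr p) = pr ((Ph x w)^[k] p) ∧ (Ph x w)^[k] p ≠ 0 := by
    intro k
    induction k with
    | zero => exact ⟨rfl, hp⟩
    | succ k ih =>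
      rw [Function.iterate_succ_apply', Function.iterate_succ_apply', ih.1, hSF _ ih.2]
      exact ⟨rfl, Ph_ne hx hε1 hw ih.2⟩
  rw [← (h3 (j + 1)).1, hp1] at h2
  exact AT_of_iter (Sg_continuous hx hε1 hw) h2

end Pool.Agent.W739.RC
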