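import Mathlib
import Pool.Agent.W739.RC.Rch

/-! If all cones are reachable then all pairs can be steered together. -/

set_option autoImplicit false

open Topology Filter Metric Set
open scoped OnePoint

namespace Pool.Agent.W739.RC

open Pool.Agent.H790R3.RB
open Pool.Agent.W739.PC (Marg cmp cmp_succ)

variable {d : ℕ}

/-- the chart with pole `e` -/
theorem chart_eq {e f : ℂ × ℂ} (hf : cr e f = 1) {q : ℂ × ℂ} (hq : cr e q ≠ 0) (s : ℂ) :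
    q + (s * cr e q) • e = cr e q • ((cr q f / cr e q + s) • e + f) := by
  conv_lhs => rw [decomp hf q]
  have h6 : cr e (cr q f • e + cr e q • f) = cr e q := by rw [← decomp hf q]
  rw [h6, smul_add, smul_smul, mul_add, mul_div_cancel₀ _ hq, add_smul, mul_comm s]
  abel

theorem chart_eq0 {e f : ℂ × ℂ} (hf : cr e f = 1) {q : ℂ × ℂ} (hq : cr e q ≠ 0) :
    q = cr e q • ((cr q f / cr e q) • e + f) := by
  have := chart_eq hf hq 0
  simpa using this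

theorem cr_chart_left {e f : ℂ × ℂ} (hf : cr e f = 1) (ζ : ℂ) : cr e (ζ • e + f) = 1 := by
  rw [cr_add_right, cr_smul_right, cr_self, mul_zero, zero_add, hf]

theorem cr_chart_right {e f : ℂ × ℂ} (hf : cr e f = 1) (ζ : ℂ) : cr (ζ • e + f) f = ζ := by
  rw [cr_add_left, cr_smul_left, cr_self, hf, mul_one, add_zero]

theorem cr_chart {e f : ℂ × ℂ} (hf : cr e f = 1) (ζ ζ' : ℂ) :
    cr (ζ • e + f) (ζ' • e + f) = ζ - ζ' := by
  rw [cr_add_right, cr_smul_right, cr_chart_right hf, cr_comm (ζ • e + f) e, cr_chart_left hf]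
  ring

theorem chart_ne {e f : ℂ × ℂ} (hf : cr e f = 1) (ζ : ℂ) : ζ • e + f ≠ 0 := by
  intro h
  have := cr_chart_left hf ζ
  rw [h] at this
  simp [cr] at this

/-- the pairs which cannot be steered to `D` -/
def YY (x : CV d) (ε : ℝ) (D : Set (ℂ × ℂ)) : Set ((ℂ × ℂ) × (ℂ × ℂ)) :=
  {q | q.1 ≠ 0 ∧ q.2 ≠ 0 ∧ ∀ u : List E2, Ok ε u → ¬ (Ph x u q.1 ∈ D ∧ Ph x u q.2 ∈ D)}

section
variable {x : CV d} {ε : ℝ} {D : Set (ℂ × ℂ)}

theorem YY_smul (hDc : ∀ p ∈ D, ∀ a : ℂ, a ≠ 0 → a • p ∈ D) {p q : ℂ × ℂ} (h : (p, q) ∈ YY x ε D)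
    {a b : ℂ} (ha : a ≠ 0) (hb : b ≠ 0) : (a • p, b • q) ∈ YY x ε D := by
  refine ⟨smul_ne_zero ha h.1, smul_ne_zero hb h.2.1, fun u hu => ?_⟩
  rintro ⟨h1, h2⟩
  apply h.2.2 u hu
  simp only at h1 h2
  rw [Ph_smul] at h1 h2
  have ha' := pow_ne_zero (d ^ u.length) ha
  have hb' := pow_ne_zero (d ^ u.length) hb
  have h3 := hDc _ h1 _ (inv_ne_zero ha')
  have h4 := hDc _ h2 _ (inv_ne_zero hb')
  rw [smul_smul, inv_mul_cancel₀ ha', one_smul] at h3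
  rw [smul_smul, inv_mul_cancel₀ hb', one_smul] at h4
  exact ⟨h3, h4⟩

theorem YY_word (hx : ND x) (hε1 : ε ≤ 1 / 2) {p q : ℂ × ℂ} (h : (p, q) ∈ YY x ε D) {v : List E2}
    (hv : Ok ε v) : (Ph x v p, Ph x v q) ∈ YY x ε D := by
  refine ⟨Ph_ne hx hε1 hv h.1, Ph_ne hx hε1 hv h.2.1, fun u hu => ?_⟩
  rintro ⟨h1, h2⟩
  apply h.2.2 (v ++ u) (hv.app hu)
  rw [Ph_append, Ph_append]
  exact ⟨h1, h2⟩

theorem YY_sep (hx : ND x) (hε1 : ε ≤ 1 / 2)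
    (hI : ∀ p : ℂ × ℂ, p ≠ 0 → ∀ e : ℂ × ℂ, e ≠ 0 → e ∈ Rc x ε p) (hDo : IsOpen D)
    (hDc : ∀ p ∈ D, ∀ a : ℂ, a ≠ 0 → a • p ∈ D) {c : ℂ × ℂ} (hc : c ∈ D) (hc0 : c ≠ 0) :
    ∃ s₁ : ℝ, 0 < s₁ ∧ ∀ p q : ℂ × ℂ, (p, q) ∈ YY x ε D → s₁ * ‖p‖ * ‖q‖ ≤ ‖cr p q‖ := by
  have hdiag : ∀ p q : ℂ × ℂ, (p, q) ∈ YY x ε D → cr p q ≠ 0 := by
    intro p q h h0
    obtain ⟨-, u, -, hu, hcr⟩ := hI p h.1 c hc0
    obtain ⟨a, ha, h1⟩ := (cr_eq_zero_iff (Ph_ne hx hε1 hu h.1) hc0).1 hcr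
    have h2 : Ph x u p ∈ D := by rw [h1]; exact hDc c hc a ha
    have h3 : cr (Ph x u q) (Ph x u p) = 0 := by
      rw [cr_comm, Ph_cr h.1 h.2.1 h0, neg_zero]
    obtain ⟨b, hb, h4⟩ := (cr_eq_zero_iff (Ph_ne hx hε1 hu h.2.1) (Ph_ne hx hε1 hu h.1)).1 h3
    exact h.2.2 u hu ⟨h2, by rw [h4]; exact hDc _ h2 b hb⟩
  set K : Set ((ℂ × ℂ) × (ℂ × ℂ)) := sphere (0 : ℂ × ℂ) 1 ×ˢ sphere (0 : ℂ × ℂ) 1 with hK
  have hne : ∀ p ∈ sphere (0 : ℂ × ℂ) 1, p ≠ 0 := fun p hp h0 => by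
    rw [h0, mem_sphere_iff_norm, sub_zero, norm_zero] at hp
    exact zero_ne_one hp
  have hKc : IsCompact K := (isCompact_sphere _ _).prod (isCompact_sphere _ _)
  set T : Set ((ℂ × ℂ) × (ℂ × ℂ)) := K ∩ ⋂ u ∈ {u : List E2 | Ok ε u},
    {q | ¬ (Ph x u q.1 ∈ D ∧ Ph x u q.2 ∈ D)} with hT
  have hTY : ∀ q ∈ T, q ∈ YY x ε D := by
    rintro q ⟨hq, hq2⟩
    rw [mem_iInter₂] at hq2
    exact ⟨hne _ hq.1, hne _ hq.2, fun u hu => hq2 u hu⟩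
  have hTc : IsCompact T := by
    apply hKc.inter_right
    refine isClosed_biInter fun u _ => ?_
    have h1 : IsOpen {q : (ℂ × ℂ) × (ℂ × ℂ) | Ph x u q.1 ∈ D ∧ Ph x u q.2 ∈ D} :=
      (hDo.preimage ((Ph_continuous x u).comp continuous_fst)).inter
        (hDo.preimage ((Ph_continuous x u).comp continuous_snd))
    exact h1.isClosed_compl
  have hcr : Continuous fun q : (ℂ × ℂ) × (ℂ × ℂ) => ‖cr q.1 q.2‖ := by
    unfold cr
    fun_prop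
  have hmain : ∃ s₁ : ℝ, 0 < s₁ ∧ ∀ q ∈ T, s₁ ≤ ‖cr q.1 q.2‖ := by
    rcases T.eq_empty_or_nonempty with h | h
    · exact ⟨1, one_pos, fun q hq => by rw [h] at hq; exact absurd hq (notMem_empty q)⟩
    · obtain ⟨q₀, hq₀, hmin⟩ := hTc.exists_isMinOn h hcr.continuousOn
      exact ⟨‖cr q₀.1 q₀.2‖, norm_pos_iff.2 (hdiag _ _ (hTY q₀ hq₀)), fun q hq => hmin hq⟩
  obtain ⟨s₁, hs₁, hs⟩ := hmain
  refine ⟨s₁, hs₁, fun p q h => ?_⟩
  have hp := norm_pos_iff.2 h.1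
  have hq := norm_pos_iff.2 h.2.1
  simp only at hp hq
  have ha0 : ((‖p‖ : ℝ) : ℂ)⁻¹ ≠ 0 := inv_ne_zero (by exact_mod_cast hp.ne')
  have hb0 : ((‖q‖ : ℝ) : ℂ)⁻¹ ≠ 0 := inv_ne_zero (by exact_mod_cast hq.ne')
  have h1 := YY_smul hDc h ha0 hb0
  have h2 : ((((‖p‖ : ℝ) : ℂ)⁻¹ • p, ((‖q‖ : ℝ) : ℂ)⁻¹ • q) : (ℂ × ℂ) × (ℂ × ℂ)) ∈ T := by
    refine ⟨⟨?_, ?_⟩, ?_⟩
    · rw [mem_sphere_iff_norm, sub_zero, norm_smul, norm_inv, Complex.norm_real,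
        norm_norm, inv_mul_cancel₀ hp.ne']
    · rw [mem_sphere_iff_norm, sub_zero, norm_smul, norm_inv, Complex.norm_real,
        norm_norm, inv_mul_cancel₀ hq.ne']
    · exact mem_iInter₂.2 fun u hu => h1.2.2 u hu
  have h3 := hs _ h2
  simp only at h3
  rw [cr_smul_left, cr_smul_right, norm_mul, norm_mul, norm_inv, norm_inv, Complex.norm_real,
    Complex.norm_real, norm_norm, norm_norm] at h3
  calc s₁ * ‖p‖ * ‖q‖ ≤ (‖p‖⁻¹ * (‖q‖⁻¹ * ‖cr p q‖)) * ‖p‖ * ‖q‖ := by gcongr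
    _ = ‖cr p q‖ := by field_simp

/-- normalisation -/
noncomputable def nrm (p : ℂ × ℂ) : ℂ × ℂ := ((‖p‖ : ℝ) : ℂ)⁻¹ • p

theorem nrm_norm {p : ℂ × ℂ} (hp : p ≠ 0) : ‖nrm p‖ = 1 := by
  have hp' : ‖p‖ ≠ 0 := norm_ne_zero_iff.2 hp
  rw [nrm, norm_smul, norm_inv, Complex.norm_real, norm_norm, inv_mul_cancel₀ hp']

theorem nrm_ne {p : ℂ × ℂ} (hp : p ≠ 0) : nrm p ≠ 0 := by
  intro h
  have := nrm_norm hp
  rw [h, norm_zero] at this
  exact zero_ne_one this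

theorem nrm_scal {p : ℂ × ℂ} (hp : p ≠ 0) : ((‖p‖ : ℝ) : ℂ)⁻¹ ≠ 0 :=
  inv_ne_zero (by exact_mod_cast norm_ne_zero_iff.2 hp)

/-- Uniform contraction of the second coordinate. -/
theorem YY_contr (hx : ND x) (hε : 0 < ε) (hε1 : ε ≤ 1 / 2)
    (hDc : ∀ p ∈ D, ∀ a : ℂ, a ≠ 0 → a • p ∈ D) {s₁ : ℝ} (hs₁ : 0 < s₁)
    (hsep : ∀ p q : ℂ × ℂ, (p, q) ∈ YY x ε D → s₁ * ‖p‖ * ‖q‖ ≤ ‖cr p q‖)
    {u f : ℂ × ℂ} (hu : ‖u‖ = 1) (hf : cr u f = 1) (hfn : ‖f‖ = 1) {ζ₀ : ℂ}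
    (hb : ∀ ζ ∈ ball ζ₀ ε, (u, ζ • u + f) ∈ YY x ε D) :
    ∃ a : ℕ → ℝ, Tendsto a atTop (𝓝 0) ∧ ∀ ζ ∈ ball ζ₀ (ε / 2), ∀ ζ' ∈ ball ζ₀ (ε / 2), ∀ n : ℕ,
      ‖cr ((hF x)^[n] (ζ • u + f)) ((hF x)^[n] (ζ' • u + f))‖ ≤
        a n * ‖(hF x)^[n] (ζ • u + f)‖ * ‖(hF x)^[n] (ζ' • u + f)‖ := by
  have hu0 : u ≠ 0 := fun h => by rw [h, norm_zero] at hu; exact zero_ne_one hu
  -- the orbit of `u`
  set U : ℕ → ℂ × ℂ := fun n => Nat.rec u (fun _ v => nrm (hF x v)) n with hU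
  have hU0 : U 0 = u := rfl
  have hUs : ∀ n, U (n + 1) = nrm (hF x (U n)) := fun n => rfl
  have hUn : ∀ n, ‖U n‖ = 1 ∧ U n ≠ 0 := by
    intro n
    induction n with
    | zero => exact ⟨hu, hu0⟩
    | succ n ih =>
      have h1 : hF x (U n) ≠ 0 := fun h => ih.2 (hx _ h)
      rw [hUs]
      exact ⟨nrm_norm h1, nrm_ne h1⟩
  obtain ⟨fr, hfr0, hfr⟩ : ∃ fr : ℕ → ℂ × ℂ, fr 0 = f ∧ ∀ n, cr (U n) (fr n) = 1 ∧ ‖fr n‖ = 1 := by
    choose fr h1 h2 using fun n => exists_frame (hUn n).2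
    refine ⟨fun n => if n = 0 then f else fr n, if_pos rfl, fun n => ?_⟩
    by_cases hn : n = 0
    · rw [hn]; simp only [if_true]; exact ⟨hf, hfn⟩
    · simp only [if_neg hn]
      refine ⟨h1 n, ?_⟩
      have := h2 n
      rwa [(hUn n).1, mul_one] at this
  set v : ℕ → ℂ → ℂ × ℂ := fun n ζ => ζ • U n + fr n with hv
  set O : ℕ → Set ℂ := fun n => {ζ | (U n, v n ζ) ∈ YY x ε D} with hO
  set g : ℕ → ℂ → ℂ := fun n ζ => cr (hF x (v n ζ)) (fr (n + 1)) / cr (U (n + 1)) (hF x (v n ζ))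
    with hg
  have hI2 : Ok ε [I2] := ok_single (I2_mem hε)
  have hstep : ∀ n, ∀ ζ ∈ O n, (U (n + 1), hF x (v n ζ)) ∈ YY x ε D := by
    intro n ζ hζ
    have h1 := YY_word hx hε1 hζ hI2
    simp only [Ph_single, mv_I2] at h1
    have h2 := YY_smul hDc h1 (nrm_scal (p := hF x (U n)) h1.1) (one_ne_zero (α := ℂ))
    rw [one_smul] at h2
    exact h2
  have hcrne : ∀ n, ∀ ζ ∈ O n, cr (U (n + 1)) (hF x (v n ζ)) ≠ 0 := by
    intro n ζ hζ h0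
    have h1 := hstep n ζ hζ
    have h2 := hsep _ _ h1
    rw [h0, norm_zero, (hUn (n + 1)).1, mul_one] at h2
    have h3 := norm_pos_iff.2 h1.2.1
    simp only at h3
    nlinarith
  have hM : Marg O g (2 / s₁) ε := by
    refine ⟨by positivity, hε, ?_, ?_, ?_⟩
    · intro n ζ hζ
      rw [mem_closedBall_zero_iff]
      have h1 := hsep _ _ hζ
      rw [(hUn n).1, mul_one, cr_chart_left (hfr n).1, norm_one] at h1
      have h2 := cr_le (v n ζ) (fr n)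
      rw [cr_chart_right (hfr n).1, (hfr n).2, mul_one] at h2
      have h3 : ‖v n ζ‖ ≤ 1 / s₁ := by rw [le_div_iff₀ hs₁]; linarith
      calc ‖ζ‖ ≤ 2 * ‖v n ζ‖ := h2
        _ ≤ 2 * (1 / s₁) := by gcongr
        _ = 2 / s₁ := by ring
    · intro n ζ hζ
      have h1 : DifferentiableAt ℂ (fun ζ : ℂ => hF x (v n ζ)) ζ := by
        apply DifferentiableAt.comp ζ (hF_differentiable x _)
        exact (differentiableAt_id.smul_const (U n)).add_const (fr n)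
      have h3 : DifferentiableAt ℂ (fun ζ : ℂ => cr (hF x (v n ζ)) (fr (n + 1))) ζ := by
        unfold cr
        exact (h1.fst.mul_const _).sub (h1.snd.mul_const _)
      have h4 : DifferentiableAt ℂ (fun ζ : ℂ => cr (U (n + 1)) (hF x (v n ζ))) ζ := by
        unfold cr
        exact (h1.snd.const_mul _).sub (h1.fst.const_mul _)
      exact h3.div h4 (hcrne n ζ hζ)
    · intro n ζ hζ s hs
      have hSh : Sh (U (n + 1)) s ∈ Bl ε := by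
        apply Sh_mem
        rw [(hUn (n + 1)).1]
        simpa using hs
      have h1 := YY_word hx hε1 hζ (ok_single hSh)
      simp only [Ph_single, mv_Sh] at h1
      have hFU : hF x (U n) = (((‖hF x (U n)‖ : ℝ) : ℂ)) • U (n + 1) := by
        rw [hUs, nrm, smul_smul, mul_inv_cancel₀, one_smul]
        have : hF x (U n) ≠ 0 := fun h => (hUn n).2 (hx _ h)
        exact_mod_cast norm_ne_zero_iff.2 this
      have h2 : cr (U (n + 1)) (hF x (U n)) = 0 := by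
        rw [hFU, cr_smul_right, cr_self, mul_zero]
      rw [h2, mul_zero, zero_smul, add_zero, chart_eq (hfr (n + 1)).1 (hcrne n ζ hζ)] at h1
      have h3 := YY_smul hDc h1 (nrm_scal (p := hF x (U n)) h1.1) (inv_ne_zero (hcrne n ζ hζ))
      rw [smul_smul, inv_mul_cancel₀ (hcrne n ζ hζ), one_smul] at h3
      exact h3
  -- the relation between the chart and the iterates
  have hrel : ∀ ζ ∈ O 0, ∀ n, ∃ t : ℂ, t ≠ 0 ∧ (hF x)^[n] (ζ • u + f) = t • v n (cmp g n ζ) := by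
    intro ζ hζ n
    induction n with
    | zero => exact ⟨1, one_ne_zero, by rw [one_smul]; show ζ • u + f = ζ • U 0 + fr 0; rw [hfr0, hU0]⟩
    | succ n ih =>
      obtain ⟨t, ht, h1⟩ := ih
      have hmem := hM.cmp_mem hζ n
      refine ⟨t ^ d * cr (U (n + 1)) (hF x (v n (cmp g n ζ))),
        mul_ne_zero (pow_ne_zero _ ht) (hcrne n _ hmem), ?_⟩
      rw [Function.iterate_succ_apply', h1, hF_smul, mul_smul]
      congr 1
      exact chart_eq0 (hfr (n + 1)).1 (hcrne n _ hmem)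
  have hball : ball ζ₀ ε ⊆ O 0 := by
    intro ζ hζ
    show (U 0, ζ • U 0 + fr 0) ∈ YY x ε D
    rw [hfr0]
    exact hb ζ hζ
  set R := 2 / s₁ with hR
  have hR0 : 0 < R := by positivity
  set lam : ℝ := (1 + ε / (4 * R))⁻¹ with hlam
  have hpos : 0 < ε / (4 * R) := by positivity
  have hl0 : 0 < lam := by positivity
  have hl1 : lam < 1 := inv_lt_one_of_one_lt₀ (by linarith)
  refine ⟨fun n => 4 * ((6 * R / ε) * lam ^ n * ε), ?_, ?_⟩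
  · have h1 : Tendsto (fun n : ℕ => lam ^ n) atTop (𝓝 0) :=
      tendsto_pow_atTop_nhds_zero_of_lt_one hl0.le hl1
    have h2 := ((h1.const_mul (6 * R / ε)).mul_const ε).const_mul 4
    simpa using h2
  · intro ζ hζ ζ' hζ' n
    have hs2 : ball ζ₀ (ε / 2) ⊆ ball ζ₀ ε := ball_subset_ball (by linarith)
    obtain ⟨t, ht, h1⟩ := hrel ζ (hball (hs2 hζ)) n
    obtain ⟨t', ht', h1'⟩ := hrel ζ' (hball (hs2 hζ')) n
    have h2 := hM.dist_le hε hball n hζ hζ'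
    have h3 : ‖ζ - ζ'‖ ≤ ε := by
      rw [mem_ball, dist_eq_norm] at hζ hζ'
      calc ‖ζ - ζ'‖ = ‖(ζ - ζ₀) - (ζ' - ζ₀)‖ := by congr 1; ring
        _ ≤ ‖ζ - ζ₀‖ + ‖ζ' - ζ₀‖ := norm_sub_le _ _
        _ ≤ ε := by linarith
    have h4 : ∀ (ζ : ℂ) (t : ℂ), ‖t‖ ≤ 2 * ‖t • v n ζ‖ := by
      intro ζ t
      have e1 := cr_le (U n) (v n ζ)
      rw [cr_chart_left (hfr n).1, norm_one, (hUn n).1, mul_one] at e1
      rw [norm_smul]
      nlinarith [norm_nonneg t]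
    rw [h1, h1', cr_smul_left, cr_smul_right, cr_chart (hfr n).1, norm_mul, norm_mul]
    have h5 := h4 (cmp g n ζ) t
    have h6 := h4 (cmp g n ζ') t'
    have h7 : ‖cmp g n ζ - cmp g n ζ'‖ ≤ (6 * R / ε) * lam ^ n * ε :=
      h2.trans (by gcongr)
    calc ‖t‖ * (‖t'‖ * ‖cmp g n ζ - cmp g n ζ'‖)
        ≤ (2 * ‖t • v n (cmp g n ζ)‖) * ((2 * ‖t' • v n (cmp g n ζ')‖) *
            ((6 * R / ε) * lam ^ n * ε)) := by gcongr
      _ = _ := by ring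

/-- If all cones are reachable then every pair can be steered to `D`. -/
theorem pairs (hd : 2 ≤ d) (hx : ND x) (hε : 0 < ε) (hε1 : ε ≤ 1 / 2)
    (hI : ∀ p : ℂ × ℂ, p ≠ 0 → ∀ e : ℂ × ℂ, e ≠ 0 → e ∈ Rc x ε p) (hDo : IsOpen D)
    (hDc : ∀ p ∈ D, ∀ a : ℂ, a ≠ 0 → a • p ∈ D) {c : ℂ × ℂ} (hc : c ∈ D) (hc0 : c ≠ 0)
    {p q : ℂ × ℂ} (hp : p ≠ 0) (hq : q ≠ 0) :
    ∃ u : List E2, Ok ε u ∧ Ph x u p ∈ D ∧ Ph x u q ∈ D := by
  by_contra hcon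
  have hY : (p, q) ∈ YY x ε D := ⟨hp, hq, fun u hu h => hcon ⟨u, hu, h⟩⟩
  obtain ⟨s₁, hs₁, hsep⟩ := YY_sep hx hε1 hI hDo hDc hc hc0
  have hI2 : Ok ε [I2] := ok_single (I2_mem hε)
  -- neighbourhoods which are contracted
  have hN : ∀ v : ℂ × ℂ, v ≠ 0 → ∃ A ∈ 𝓝 v, ∃ a : ℕ → ℝ, Tendsto a atTop (𝓝 0) ∧
      ∀ z ∈ A, ∀ z' ∈ A, ∀ n : ℕ, ‖cr ((hF x)^[n] z) ((hF x)^[n] z')‖ ≤
        a n * ‖(hF x)^[n] z‖ * ‖(hF x)^[n] z'‖ := by
    intro v hv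
    obtain ⟨v', hv', hvv⟩ := hF_surj hd hx v
    obtain ⟨-, w, -, hw, hwc⟩ := hI q hq v' hv'
    have h1 := YY_word hx hε1 hY hw
    set p₁ := Ph x w p with hp₁
    have hFv' : hF x v' ≠ 0 := fun h => hv' (hx _ h)
    have hFp₁ : hF x p₁ ≠ 0 := fun h => h1.1 (hx _ h)
    -- `(p₁, v')` cannot be steered
    have h2 : (p₁, v') ∈ YY x ε D := by
      obtain ⟨b, hb, h3⟩ := (cr_eq_zero_iff hv' h1.2.1).1 (by rw [cr_comm, hwc, neg_zero])
      rw [h3]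
      have := YY_smul hDc h1 (one_ne_zero (α := ℂ)) hb
      rwa [one_smul] at this
    set u := nrm (hF x p₁) with hu
    have hun : ‖u‖ = 1 := nrm_norm hFp₁
    have hu0 : u ≠ 0 := nrm_ne hFp₁
    obtain ⟨f, hf, hfn⟩ := exists_frame hu0
    rw [hun, mul_one] at hfn
    obtain ⟨b, hb, hvb⟩ := (cr_eq_zero_iff hv hFv').1 (by rw [cr_comm, hvv, neg_zero])
    have hp₁u : hF x p₁ = ((‖hF x p₁‖ : ℝ) : ℂ) • u := by
      rw [hu, nrm, smul_smul, mul_inv_cancel₀, one_smul]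
      exact_mod_cast norm_ne_zero_iff.2 hFp₁
    -- margin
    have hmar : ∀ s : ℂ, ‖s‖ < ε → (u, v + (s * cr u v) • u) ∈ YY x ε D := by
      intro s hs
      have hSh : Sh u s ∈ Bl ε := by
        apply Sh_mem
        rw [hun]
        simpa using hs
      have h3 := YY_word hx hε1 h2 (ok_single hSh)
      simp only [Ph_single, mv_Sh] at h3
      have h4 : cr u (hF x p₁) = 0 := by rw [hp₁u, cr_smul_right, cr_self, mul_zero]
      rw [h4, mul_zero, zero_smul, add_zero] at h3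
      have h5 := YY_smul hDc h3 (nrm_scal (p := hF x p₁) h3.1) hb
      have h6 : b • (hF x v' + (s * cr u (hF x v')) • u) = v + (s * cr u v) • u := by
        rw [hvb, cr_smul_right, smul_add, smul_smul]
        congr 2
        ring
      rw [h6] at h5
      exact h5
    have hcruv : cr u v ≠ 0 := by
      intro h0
      have h3 := hmar 0 (by simpa using hε)
      rw [zero_mul, zero_smul, add_zero] at h3
      have h4 := hsep _ _ h3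
      rw [h0, norm_zero, hun, mul_one] at h4
      have h5 := norm_pos_iff.2 hv
      nlinarith
    set ζ₀ : ℂ := cr v f / cr u v with hζ₀
    have hb0 : ∀ ζ ∈ ball ζ₀ ε, (u, ζ • u + f) ∈ YY x ε D := by
      intro ζ hζ
      rw [mem_ball, dist_eq_norm] at hζ
      have h3 := hmar (ζ - ζ₀) hζ
      rw [chart_eq hf hcruv] at h3
      have h4 := YY_smul hDc h3 (one_ne_zero (α := ℂ)) (inv_ne_zero hcruv)
      rw [smul_smul, inv_mul_cancel₀ hcruv, one_smul, one_smul, ← hζ₀, add_sub_cancel] at h4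
      exact h4
    obtain ⟨a, ha, hab⟩ := YY_contr hx hε hε1 hDc hs₁ hsep hun hf hfn hb0
    refine ⟨{z | cr u z ≠ 0 ∧ cr z f / cr u z ∈ ball ζ₀ (ε / 2)}, ?_, a, ha, ?_⟩
    · have hc1 : Continuous fun z : ℂ × ℂ => cr u z := by unfold cr; fun_prop
      have hc2 : Continuous fun z : ℂ × ℂ => cr z f := by unfold cr; fun_prop
      have h3 : ContinuousAt (fun z : ℂ × ℂ => cr z f / cr u z) v :=
        hc2.continuousAt.div hc1.continuousAt hcruv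
      refine Filter.inter_mem ?_ (h3.preimage_mem_nhds (isOpen_ball.mem_nhds
        (mem_ball_self (by positivity))))
      exact (isOpen_ne.preimage hc1).mem_nhds hcruv
    · rintro z ⟨hz1, hz2⟩ z' ⟨hz1', hz2'⟩ n
      have h3 := hab _ hz2 _ hz2' n
      set y := (cr z f / cr u z) • u + f with hy
      set y' := (cr z' f / cr u z') • u + f with hy'
      have h4 : (hF x)^[n] z = (cr u z) ^ (d ^ n) • (hF x)^[n] y := by
        rw [← hF_iter_smul, ← chart_eq0 hf hz1]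
      have h5 : (hF x)^[n] z' = (cr u z') ^ (d ^ n) • (hF x)^[n] y' := by
        rw [← hF_iter_smul, ← chart_eq0 hf hz1']
      rw [h4, h5, cr_smul_left, cr_smul_right, norm_mul, norm_mul, norm_smul, norm_smul]
      calc ‖cr u z ^ d ^ n‖ * (‖cr u z' ^ d ^ n‖ * ‖cr ((hF x)^[n] y) ((hF x)^[n] y')‖)
          ≤ ‖cr u z ^ d ^ n‖ * (‖cr u z' ^ d ^ n‖ *
              (a n * ‖(hF x)^[n] y‖ * ‖(hF x)^[n] y'‖)) := by gcongr
        _ = _ := by ring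
  -- finite cover
  choose! A hA a ha hab using hN
  have hne : ∀ p ∈ sphere (0 : ℂ × ℂ) 1, p ≠ 0 := fun p hp h0 => by
    rw [h0, mem_sphere_iff_norm, sub_zero, norm_zero] at hp
    exact zero_ne_one hp
  obtain ⟨t, ht, htc⟩ := (isCompact_sphere (0 : ℂ × ℂ) 1).elim_nhds_subcover A fun v hv =>
    hA v (hne v hv)
  set k : ℕ := t.card with hk
  have hev : ∀ᶠ n : ℕ in atTop, ∀ v ∈ t, a v n < 1 / ((k : ℝ) + 1) ^ 2 := by
    rw [eventually_all_finset]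
    intro v hv
    exact (ha v (hne v (ht v hv))).eventually (Iio_mem_nhds (by positivity))
  obtain ⟨n, hn⟩ := hev.exists
  have hz : ∀ i : Fin (k + 1), ∃ z : ℂ × ℂ, ‖z‖ = 1 ∧ ∃ s : ℂ, s ≠ 0 ∧
      (hF x)^[n] z = s • (((i : ℕ) : ℂ), (1 : ℂ)) := by
    intro i
    have hw : (((i : ℕ) : ℂ), (1 : ℂ)) ≠ 0 := fun h => one_ne_zero (congrArg Prod.snd h)
    obtain ⟨z, hz0, hz⟩ := it_surj hd hx n hw
    refine ⟨nrm z, nrm_norm hz0, ?_⟩
    have h1 : cr ((hF x)^[n] (nrm z)) (((i : ℕ) : ℂ), (1 : ℂ)) = 0 := by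
      rw [nrm, hF_iter_smul, cr_smul_left, hz, mul_zero]
    exact (cr_eq_zero_iff (hx.iter_ne n (nrm_ne hz0)) hw).1 h1
  choose z hz1 s hs0 hzs using hz
  have hmem : ∀ i, ∃ v ∈ t, z i ∈ A v := by
    intro i
    have : z i ∈ sphere (0 : ℂ × ℂ) 1 := by
      rw [mem_sphere_iff_norm, sub_zero]; exact hz1 i
    obtain ⟨v, hv, h⟩ := mem_iUnion₂.1 (htc this)
    exact ⟨v, hv, h⟩
  choose v hvt hvA using hmem
  obtain ⟨i, -, j, -, hij, hvij⟩ := Finset.exists_ne_map_eq_of_card_lt_of_maps_to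
    (s := (Finset.univ : Finset (Fin (k + 1)))) (t := t) (f := v) (by
      rw [Finset.card_univ, Fintype.card_fin]; omega) (fun i _ => hvt i)
  have h1 := hab (v i) (hne _ (ht _ (hvt i))) (z i) (hvA i) (z j) (by rw [hvij]; exact hvA j) n
  rw [hzs i, hzs j, cr_smul_left, cr_smul_right, norm_mul, norm_mul, norm_smul, norm_smul] at h1
  have h2 : (1 : ℝ) ≤ ‖cr (((i : ℕ) : ℂ), (1 : ℂ)) (((j : ℕ) : ℂ), (1 : ℂ))‖ := by
    have e1 : cr (((i : ℕ) : ℂ), (1 : ℂ)) (((j : ℕ) : ℂ), (1 : ℂ)) =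
        ((((i : ℕ) : ℤ) - ((j : ℕ) : ℤ) : ℤ) : ℂ) := by
      unfold cr
      push_cast
      ring
    rw [e1, Complex.norm_intCast]
    have h3 : (((i : ℕ) : ℤ) - ((j : ℕ) : ℤ)) ≠ 0 := by
      intro h
      apply hij
      apply Fin.ext
      omega
    exact_mod_cast Int.one_le_abs h3
  have h3 : ∀ i : Fin (k + 1), ‖(((i : ℕ) : ℂ), (1 : ℂ))‖ ≤ (k : ℝ) + 1 := by
    intro i
    rw [Prod.norm_def]
    refine max_le ?_ ?_
    · rw [Complex.norm_natCast]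
      have : (i : ℕ) ≤ k := by omega
      have : ((i : ℕ) : ℝ) ≤ k := by exact_mod_cast this
      linarith
    · rw [norm_one]
      linarith [(Nat.cast_nonneg k : (0 : ℝ) ≤ k)]
  have hsi := norm_pos_iff.2 (hs0 i)
  have hsj := norm_pos_iff.2 (hs0 j)
  have h4 : ‖s i‖ * (‖s j‖ * 1) < ‖s i‖ * (‖s j‖ * 1) := by
    calc ‖s i‖ * (‖s j‖ * 1) ≤ ‖s i‖ * (‖s j‖ *
          ‖cr (((i : ℕ) : ℂ), (1 : ℂ)) (((j : ℕ) : ℂ), (1 : ℂ))‖) := by gcongr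
      _ ≤ _ := h1
      _ = a (v i) n * ((‖s i‖ * ‖s j‖) * (‖(((i : ℕ) : ℂ), (1 : ℂ))‖ *
            ‖(((j : ℕ) : ℂ), (1 : ℂ))‖)) := by ring
      _ ≤ max (a (v i) n) 0 * ((‖s i‖ * ‖s j‖) * (((k : ℝ) + 1) * ((k : ℝ) + 1))) := by
          gcongr
          · exact le_max_left _ _
          · exact h3 i
          · exact h3 j
      _ < (1 / ((k : ℝ) + 1) ^ 2) * ((‖s i‖ * ‖s j‖) * (((k : ℝ) + 1) * ((k : ℝ) + 1))) := by
          have : max (a (v i) n) 0 < 1 / ((k : ℝ) + 1) ^ 2 :=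
            max_lt (hn _ (hvt i)) (by positivity)
          gcongr
      _ = ‖s i‖ * (‖s j‖ * 1) := by field_simp
  exact lt_irrefl _ h4

end

end Pool.Agent.W739.RC
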