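import Mathlib
import Pool.Agent.W739.RC.Pair

/-! Discs about a critical point, loops at the critical point. -/

set_option autoImplicit false

open Topology Filter Metric Set
open scoped OnePoint

namespace Pool.Agent.W739.RC

open Pool.Agent.H790R3.RB

variable {d : ℕ}

/-- the cone over the disc of radius `r` about `c`, in the coordinate given by the frame `e` -/
def Dk (c e : ℂ × ℂ) (r : ℝ) : Set (ℂ × ℂ) := {p | ‖cr c p‖ < r * ‖cr p e‖}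

section
variable {c e : ℂ × ℂ}

theorem Dk_open (r : ℝ) : IsOpen (Dk c e r) := by
  apply isOpen_lt
  · unfold cr
    fun_prop
  · unfold cr
    fun_prop

theorem Dk_cr {r : ℝ} {p : ℂ × ℂ} (hp : p ∈ Dk c e r) : cr p e ≠ 0 := by
  intro h
  have h1 : ‖cr c p‖ < r * ‖cr p e‖ := hp
  rw [h, norm_zero, mul_zero] at h1
  exact absurd h1 (not_lt.2 (norm_nonneg _))

theorem Dk_ne {r : ℝ} {p : ℂ × ℂ} (hp : p ∈ Dk c e r) : p ≠ 0 := by
  intro h
  apply Dk_cr hp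
  rw [h]
  simp [cr]

theorem Dk_cone {r : ℝ} {p : ℂ × ℂ} (hp : p ∈ Dk c e r) {a : ℂ} (ha : a ≠ 0) : a • p ∈ Dk c e r := by
  show ‖cr c (a • p)‖ < r * ‖cr (a • p) e‖
  have h1 : ‖cr c p‖ < r * ‖cr p e‖ := hp
  rw [cr_smul_left, cr_smul_right, norm_mul, norm_mul]
  have := norm_pos_iff.2 ha
  nlinarith

theorem Dk_mono {r r' : ℝ} (h : r ≤ r') : Dk c e r ⊆ Dk c e r' := by
  intro p hp
  have h1 : ‖cr c p‖ < r * ‖cr p e‖ := hp
  show ‖cr c p‖ < r' * ‖cr p e‖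
  exact h1.trans_le (by gcongr)

theorem Dk_self (he : cr c e = 1) {r : ℝ} (hr : 0 < r) : c ∈ Dk c e r := by
  show ‖cr c c‖ < r * ‖cr c e‖
  rw [cr_self, he, norm_zero, norm_one]
  linarith

theorem Dk_off (he : cr c e = 1) {r : ℝ} (hr : 0 < r) : ∃ e' : ℂ × ℂ, e' ≠ 0 ∧ ∃ r' : ℝ, 0 < r' ∧
    ∀ p ∈ Dk c e r, r' * ‖p‖ ≤ ‖cr e' p‖ := by
  have he0 : e ≠ 0 := fun h => by rw [h] at he; simp [cr] at he
  have hc0 : c ≠ 0 := fun h => by rw [h] at he; simp [cr] at he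
  have hc := norm_pos_iff.2 hc0
  have hpos : 0 < ‖c‖ + r * ‖e‖ := by positivity
  refine ⟨e, he0, (‖c‖ + r * ‖e‖)⁻¹, inv_pos.2 hpos, fun p hp => ?_⟩
  have h1 : ‖cr c p‖ < r * ‖cr p e‖ := hp
  have h2 : ‖p‖ ≤ ‖cr p e‖ * ‖c‖ + ‖cr c p‖ * ‖e‖ := by
    calc ‖p‖ = ‖cr p e • c + cr c p • e‖ := by rw [← decomp he p]
      _ ≤ ‖cr p e • c‖ + ‖cr c p • e‖ := norm_add_le _ _
      _ = _ := by rw [norm_smul, norm_smul]
  have h3 : ‖cr e p‖ = ‖cr p e‖ := by rw [cr_comm, norm_neg]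
  rw [h3, inv_mul_le_iff₀ hpos]
  nlinarith [norm_nonneg e, norm_nonneg (cr p e)]

/-- the coordinate -/
theorem Dk_coord (he : cr c e = 1) {r : ℝ} {p : ℂ × ℂ} (hp : p ∈ Dk c e r) :
    ∃ a t : ℂ, a ≠ 0 ∧ ‖t‖ < r ∧ p = a • (c + t • e) := by
  have h0 := Dk_cr hp
  have h1 : ‖cr c p‖ < r * ‖cr p e‖ := hp
  refine ⟨cr p e, cr c p / cr p e, h0, ?_, ?_⟩
  · rw [norm_div, div_lt_iff₀ (norm_pos_iff.2 h0)]
    exact h1
  · conv_lhs => rw [decomp he p]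
    rw [smul_add, smul_smul, mul_div_cancel₀ _ h0]

theorem cr_ct_left (he : cr c e = 1) (t : ℂ) : cr (c + t • e) e = 1 := by
  rw [cr_add_left, cr_smul_left, cr_self, he, mul_zero, add_zero]

theorem cr_ct_right (he : cr c e = 1) (t : ℂ) : cr c (c + t • e) = t := by
  rw [cr_add_right, cr_smul_right, cr_self, he, mul_one, zero_add]

theorem Dk_mem (he : cr c e = 1) {r : ℝ} {t : ℂ} (ht : ‖t‖ < r) : c + t • e ∈ Dk c e r := by
  show ‖cr c (c + t • e)‖ < r * ‖cr (c + t • e) e‖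
  rw [cr_ct_left he, cr_ct_right he, norm_one, mul_one]
  exact ht

/-- to map one cone to another it suffices to check the points of the slice -/
theorem Dk_map (he : cr c e = 1) {F : ℂ × ℂ → ℂ × ℂ} {D : ℕ}
    (hF : ∀ (a : ℂ) (p : ℂ × ℂ), F (a • p) = a ^ D • F p) {r r' : ℝ}
    (h : ∀ t : ℂ, ‖t‖ < r → F (c + t • e) ∈ Dk c e r') {p : ℂ × ℂ} (hp : p ∈ Dk c e r) :
    F p ∈ Dk c e r' := by
  obtain ⟨a, t, ha, ht, rfl⟩ := Dk_coord he hp
  rw [hF]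
  exact Dk_cone (h t ht) (pow_ne_zero _ ha)

theorem Dk_mar (he : cr c e = 1) {r r' : ℝ} (hr : r' < r) :
    ∃ δ : ℝ, 0 < δ ∧ ∀ p ∈ Dk c e r', ∀ M ∈ Bl δ, mv M p ∈ Dk c e r := by
  have hK : IsCompact (closedBall (0 : ℂ) r') := isCompact_closedBall _ _
  have h1 : ∀ t ∈ closedBall (0 : ℂ) r', ∀ᶠ q : E2 × ℂ in 𝓝 (I2, t),
      mv q.1 (c + q.2 • e) ∈ Dk c e r := by
    intro t ht
    have hc0 : Continuous fun q : E2 × ℂ => ((q.1, c + q.2 • e) : E2 × (ℂ × ℂ)) :=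
      continuous_fst.prodMk (continuous_const.add (continuous_snd.smul continuous_const))
    have hc1 : Continuous fun q : E2 × ℂ => mv q.1 (c + q.2 • e) := mv_continuous.comp hc0
    apply ((Dk_open r).preimage hc1).mem_nhds
    show mv I2 (c + t • e) ∈ Dk c e r
    rw [mv_I2]
    apply Dk_mem he
    rw [mem_closedBall_zero_iff] at ht
    linarith
  have h2 : ∀ᶠ M : E2 in 𝓝 I2, ∀ t ∈ closedBall (0 : ℂ) r', mv M (c + t • e) ∈ Dk c e r :=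
    hK.eventually_forall_of_forall_eventually h1
  obtain ⟨δ, hδ, h3⟩ := Metric.eventually_nhds_iff.1 h2
  refine ⟨δ, hδ, fun p hp M hM => ?_⟩
  obtain ⟨a, t, ha, ht, rfl⟩ := Dk_coord he hp
  rw [mv_smul]
  refine Dk_cone (h3 ?_ t ?_) ha
  · rw [dist_eq_norm]; exact hM
  · rw [mem_closedBall_zero_iff]; exact ht.le

end

/-- Euler's relation -/
theorem euler_hom {F : ℂ × ℂ → ℂ × ℂ} {D : ℕ} (hF : ∀ (a : ℂ) (p : ℂ × ℂ), F (a • p) = a ^ D • F p)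
    (hd : Differentiable ℂ F) (p : ℂ × ℂ) : fderiv ℂ F p p = (D : ℂ) • F p := by
  have h1 : HasDerivAt (fun a : ℂ => F (a • p)) (fderiv ℂ F p p) 1 := by
    have e1 : HasDerivAt (fun a : ℂ => a • p) p 1 := by
      simpa using (hasDerivAt_id (1 : ℂ)).smul_const p
    have e2 : HasFDerivAt F (fderiv ℂ F p) ((1 : ℂ) • p) := by
      rw [one_smul]
      exact (hd p).hasFDerivAt
    exact e2.comp_hasDerivAt (1 : ℂ) e1
  have h2 : HasDerivAt (fun a : ℂ => F (a • p)) ((D : ℂ) • F p) 1 := by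
    have e1 : (fun a : ℂ => F (a • p)) = fun a : ℂ => a ^ D • F p := funext fun a => hF a p
    rw [e1]
    have e2 := (hasDerivAt_pow D (1 : ℂ)).smul_const (F p)
    simpa using e2
  exact h1.unique h2

/-- A loop at a critical point is superattracting. -/
theorem superatt (hd : 2 ≤ d) {x : CV d} (hx : ND x) {c e : ℂ × ℂ} (hc0 : c ≠ 0) (hc : wr x c = 0)
    (he : cr c e = 1) {σ : List E2} (hσ : σ ≠ []) (hσc : Ph x σ c ≠ 0) (hl : cr (Ph x σ c) c = 0) :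
    ∃ r₀ : ℝ, 0 < r₀ ∧ ∀ r : ℝ, r ≤ r₀ → ∀ p ∈ Dk c e r, Ph x σ p ∈ Dk c e (r / 2) := by
  obtain ⟨M, w, rfl⟩ : ∃ M w, σ = M :: w := List.exists_cons_of_ne_nil hσ
  set F := Ph x (M :: w) with hF0
  have hFh : ∀ (a : ℂ) (p : ℂ × ℂ), F (a • p) = a ^ (d ^ (M :: w).length) • F p := Ph_smul x _
  have hFd : Differentiable ℂ F := Ph_differentiable x _
  obtain ⟨a₀, ha₀, hFc⟩ := (cr_eq_zero_iff hσc hc0).1 hl
  -- the derivative at `c`
  set G : ℂ × ℂ → ℂ × ℂ := fun p => Ph x w (mv M p) with hG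
  have hGh : ∀ (a : ℂ) (p : ℂ × ℂ), G (a • p) = a ^ (d ^ w.length) • G p := by
    intro a p
    rw [hG]
    simp only
    rw [mv_smul, Ph_smul]
  have hGd : Differentiable ℂ G := (Ph_differentiable x w).comp (mv_differentiable M)
  have hFG : F = G ∘ hF x := rfl
  have hHd := hF_differentiable x
  have hHc : hF x c ≠ 0 := fun h => hc0 (hx c h)
  have hE1 : fderiv ℂ (hF x) c c = (d : ℂ) • hF x c := euler_hom (hF_smul x) hHd c
  have hE2 : fderiv ℂ G (hF x c) (hF x c) = ((d ^ w.length : ℕ) : ℂ) • G (hF x c) :=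
    euler_hom hGh hGd _
  have hcrH : cr (hF x c) (fderiv ℂ (hF x) c e) = 0 := by
    have h1 := (WR d x hd).2.2 c c e
    rw [hc, zero_mul, hE1, cr_smul_left] at h1
    have hd0 : (d : ℂ) ≠ 0 := by exact_mod_cast (by omega : d ≠ 0)
    exact (mul_eq_zero.1 h1).resolve_left hd0
  obtain ⟨f, hf, -⟩ := exists_frame hHc
  have hβ : fderiv ℂ (hF x) c e = cr (fderiv ℂ (hF x) c e) f • hF x c := by
    have h1 := decomp hf (fderiv ℂ (hF x) c e)
    rw [hcrH, zero_smul, add_zero] at h1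
    exact h1
  have hDF : cr c (fderiv ℂ F c e) = 0 := by
    have h1 : fderiv ℂ F c e = fderiv ℂ G (hF x c) (fderiv ℂ (hF x) c e) := by
      rw [hFG, fderiv_comp c (hGd _) (hHd c)]
      rfl
    have h2 : G (hF x c) = a₀ • c := hFc
    rw [h1, hβ, map_smul, hE2, h2, cr_smul_right, cr_smul_right, cr_smul_right, cr_self]
    ring
  -- the coordinate functions along the slice
  have hline : HasDerivAt (fun t : ℂ => c + t • e) e 0 := by
    simpa using ((hasDerivAt_id (0 : ℂ)).smul_const e).const_add c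
  have hFl : HasDerivAt (fun t : ℂ => F (c + t • e)) (fderiv ℂ F c e) 0 := by
    have e2 : HasFDerivAt F (fderiv ℂ F c) (c + (0 : ℂ) • e) := by
      rw [zero_smul, add_zero]
      exact (hFd c).hasFDerivAt
    have e3 := HasFDerivAt.comp_hasDerivAt (0 : ℂ) e2 hline
    exact e3
  have hφ : HasDerivAt (fun t : ℂ => cr c (F (c + t • e))) 0 0 := by
    have e1 : HasDerivAt (fun t : ℂ => (F (c + t • e)).1) (fderiv ℂ F c e).1 0 := by
      have := hFl.hasFDerivAt.fst.hasDerivAt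
      simpa using this
    have e2 : HasDerivAt (fun t : ℂ => (F (c + t • e)).2) (fderiv ℂ F c e).2 0 := by
      have := hFl.hasFDerivAt.snd.hasDerivAt
      simpa using this
    have e3 := (e2.const_mul c.1).sub (e1.const_mul c.2)
    have e4 : c.1 * (fderiv ℂ F c e).2 - c.2 * (fderiv ℂ F c e).1 = 0 := hDF
    rw [e4] at e3
    exact e3
  have hφ0 : cr c (F (c + (0 : ℂ) • e)) = 0 := by
    rw [zero_smul, add_zero]
    have : F c = a₀ • c := hFc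
    rw [this, cr_smul_right, cr_self, mul_zero]
  have hA0 : cr (F (c + (0 : ℂ) • e)) e = a₀ := by
    rw [zero_smul, add_zero]
    have : F c = a₀ • c := hFc
    rw [this, cr_smul_left, he, mul_one]
  have ha₀' := norm_pos_iff.2 ha₀
  have hev1 : ∀ᶠ t : ℂ in 𝓝 0, ‖cr c (F (c + t • e))‖ ≤ ‖a₀‖ / 4 * ‖t‖ := by
    have h1 := hφ.isLittleO.def (c := ‖a₀‖ / 4) (by positivity)
    filter_upwards [h1] with t ht
    rw [hφ0] at ht
    simpa using ht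
  have hev2 : ∀ᶠ t : ℂ in 𝓝 0, ‖a₀‖ / 2 < ‖cr (F (c + t • e)) e‖ := by
    have h1 : Continuous fun t : ℂ => ‖cr (F (c + t • e)) e‖ := by
      have h2 : Continuous fun t : ℂ => F (c + t • e) :=
        hFd.continuous.comp (continuous_const.add (continuous_id.smul continuous_const))
      unfold cr
      exact ((h2.fst.mul continuous_const).sub (h2.snd.mul continuous_const)).norm
    apply h1.continuousAt.eventually
    apply Ioi_mem_nhds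
    show ‖a₀‖ / 2 < ‖cr (F (c + (0 : ℂ) • e)) e‖
    rw [hA0]
    linarith
  obtain ⟨r₀, hr₀, h3⟩ := Metric.eventually_nhds_iff.1 (hev1.and hev2)
  refine ⟨r₀, hr₀, fun r hr p hp => Dk_map he hFh (fun t ht => ?_) hp⟩
  obtain ⟨h4, h5⟩ := h3 (y := t) (by rw [dist_zero_right]; linarith)
  show ‖cr c (F (c + t • e))‖ < r / 2 * ‖cr (F (c + t • e)) e‖
  have hr0 : 0 < r := (norm_nonneg t).trans_lt ht
  calc ‖cr c (F (c + t • e))‖ ≤ ‖a₀‖ / 4 * ‖t‖ := h4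
    _ ≤ ‖a₀‖ / 4 * r := by gcongr
    _ = r / 2 * (‖a₀‖ / 2) := by ring
    _ < r / 2 * ‖cr (F (c + t • e)) e‖ := by gcongr

/-- a loop is continuous at `c` -/
theorem loop_cont {x : CV d} {c e : ℂ × ℂ} (hc0 : c ≠ 0) (he : cr c e = 1) {τ : List E2}
    (hτc : Ph x τ c ≠ 0) (hl : cr (Ph x τ c) c = 0) {r : ℝ} (hr : 0 < r) :
    ∃ ρ : ℝ, 0 < ρ ∧ ∀ p ∈ Dk c e ρ, Ph x τ p ∈ Dk c e r := by
  obtain ⟨a₀, ha₀, hFc⟩ := (cr_eq_zero_iff hτc hc0).1 hl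
  have h1 : Continuous fun t : ℂ => Ph x τ (c + t • e) :=
    (Ph_continuous x τ).comp (continuous_const.add (continuous_id.smul continuous_const))
  have h2 : (fun t : ℂ => Ph x τ (c + t • e)) ⁻¹' Dk c e r ∈ 𝓝 (0 : ℂ) := by
    apply ((Dk_open r).preimage h1).mem_nhds
    show Ph x τ (c + (0 : ℂ) • e) ∈ Dk c e r
    rw [zero_smul, add_zero, hFc]
    exact Dk_cone (Dk_self he hr) ha₀
  obtain ⟨ρ, hρ, h3⟩ := Metric.mem_nhds_iff.1 h2
  refine ⟨ρ, hρ, fun p hp => Dk_map he (Ph_smul x τ) (fun t ht => h3 ?_) hp⟩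
  rw [mem_ball_zero_iff]
  exact ht

/-- adjustment of the last letter -/
theorem adjust {ε ε' : ℝ} (hε : ε' < ε) {c e : ℂ × ℂ} (he : cr c e = 1) {ρ : ℝ}
    (hρ : 0 < ρ) : ∃ ρ' : ℝ, 0 < ρ' ∧ ∀ (x : CV d) (u : List E2), u ≠ [] → Ok ε' u → ∀ z : ℂ × ℂ,
      Ph x u c ∈ Dk c e ρ' → Ph x u z ∈ Dk c e ρ' → ∃ u' : List E2, Ok ε u' ∧
        cr (Ph x u' c) c = 0 ∧ Ph x u' z ∈ Dk c e ρ := by
  obtain ⟨δ, hδ, hmod⟩ := mod_last_unif (d := d) hε
  have hen : 0 < ‖e‖ ^ 2 + 1 := by positivity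
  refine ⟨min (ρ / 2) (δ / (‖e‖ ^ 2 + 1)), by positivity, fun x u hu hok z h1 h2 => ?_⟩
  set ρ' := min (ρ / 2) (δ / (‖e‖ ^ 2 + 1)) with hρ'
  have hρ1 : ρ' ≤ ρ / 2 := min_le_left _ _
  have hρ2 : ρ' ≤ δ / (‖e‖ ^ 2 + 1) := min_le_right _ _
  obtain ⟨a, s, ha, hs, h3⟩ := Dk_coord he h1
  obtain ⟨b, t, hb, ht, h4⟩ := Dk_coord he h2
  have hρ0 : 0 < ρ' := (norm_nonneg s).trans_lt hs
  have hSh : Sh e s ∈ Bl δ := by
    apply Sh_mem
    calc ‖s‖ * ‖e‖ ^ 2 ≤ ρ' * ‖e‖ ^ 2 := by gcongr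
      _ < ρ' * (‖e‖ ^ 2 + 1) := by nlinarith
      _ ≤ δ / (‖e‖ ^ 2 + 1) * (‖e‖ ^ 2 + 1) := by gcongr
      _ = δ := by field_simp
  obtain ⟨u', hu', -, h5⟩ := hmod x u hok hu _ hSh
  have h6 : ∀ t : ℂ, mv (Sh e s) (c + t • e) = c + (t - s) • e := by
    intro t
    rw [mv_Sh]
    have : cr e (c + t • e) = -1 := by rw [cr_comm, cr_ct_left he]
    rw [this, add_assoc, ← add_smul]
    congr 2
    ring
  refine ⟨u', hu', ?_, ?_⟩
  · rw [h5, h3, mv_smul, h6, sub_self, zero_smul, add_zero, cr_smul_left, cr_self, mul_zero]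
  · rw [h5, h4, mv_smul, h6]
    refine Dk_cone (Dk_mem he ?_) hb
    calc ‖t - s‖ ≤ ‖t‖ + ‖s‖ := norm_sub_le _ _
      _ < ρ := by linarith

/-- Loops at `c` of all large lengths. -/
theorem loops {x : CV d} (hx : ND x) {ε : ℝ} (hε : 0 < ε) (hε1 : ε ≤ 1 / 2)
    (hI : ∀ p : ℂ × ℂ, p ≠ 0 → ∀ e : ℂ × ℂ, e ≠ 0 → e ∈ Rc x ε p) {c : ℂ × ℂ} (hc0 : c ≠ 0) :
    ∃ T : ℕ, ∀ t ≥ T, ∃ τ : List E2, Ok ε τ ∧ τ.length = t ∧ cr (Ph x τ c) c = 0 := by
  set S : AddSubmonoid ℕ :=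
    { carrier := {t | ∃ τ : List E2, Ok ε τ ∧ τ.length = t ∧ cr (Ph x τ c) c = 0}
      zero_mem' := ⟨[], ok_nil ε, rfl, cr_self c⟩
      add_mem' := by
        rintro _ _ ⟨τ, h1, rfl, h2⟩ ⟨τ', h1', rfl, h2'⟩
        refine ⟨τ ++ τ', h1.app h1', by simp, ?_⟩
        rw [Ph_append]
        have h3 : cr (Ph x τ' (Ph x τ c)) (Ph x τ' c) = 0 := Ph_cr (Ph_ne hx hε1 h1 hc0) hc0 h2
        exact cr_trans (Ph_ne hx hε1 h1' hc0) h3 h2' } with hS
  have hSm : ∀ t, t ∈ S ↔ ∃ τ : List E2, Ok ε τ ∧ τ.length = t ∧ cr (Ph x τ c) c = 0 :=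
    fun t => Iff.rfl
  obtain ⟨T, hT⟩ := Nat.exists_mem_closure_of_ge (S : Set ℕ)
  set g := Nat.setGcd (S : Set ℕ) with hg
  have hgS : ∀ t ∈ S, g ∣ t := fun t ht => Nat.setGcd_dvd_of_mem ht
  suffices hg1 : g ∣ 1 by
    refine ⟨T, fun t ht => ?_⟩
    have h1 := hT t ht (hg1.trans (one_dvd t))
    rw [AddSubmonoid.closure_eq] at h1
    exact (hSm t).1 h1
  by_contra hg1
  -- general openness
  have hopen : ∀ P : ℕ → Prop, IsOpen {w : ℂ × ℂ | w ≠ 0 ∧ ∃ u : List E2, u ≠ [] ∧ Ok ε u ∧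
      P u.length ∧ cr (Ph x u c) w = 0} := by
    intro P
    rw [isOpen_iff_mem_nhds]
    rintro w ⟨hw, u, hu, hok, hPu, hc⟩
    obtain ⟨δ, hδ, h1⟩ := mod_last x hok hu
    have hne : Ph x u c ≠ 0 := Ph_ne hx hε1 hok hc0
    set δ' := min δ 1 with hδ'
    have hδ'0 : 0 < δ' := lt_min hδ one_pos
    have h2 : IsOpen {w' : ℂ × ℂ | w' ≠ 0 ∧ ‖cr (Ph x u c) w'‖ < δ' / 2 * ‖Ph x u c‖ * ‖w'‖} := by
      have h3 : IsOpen {w' : ℂ × ℂ | ‖cr (Ph x u c) w'‖ < δ' / 2 * ‖Ph x u c‖ * ‖w'‖} := by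
        apply isOpen_lt
        · unfold cr
          fun_prop
        · fun_prop
      exact isOpen_ne.inter h3
    refine Filter.mem_of_superset (h2.mem_nhds ⟨hw, ?_⟩) ?_
    · show ‖cr (Ph x u c) w‖ < _
      rw [hc, norm_zero]
      have := norm_pos_iff.2 hne
      have := norm_pos_iff.2 hw
      positivity
    · rintro w' ⟨hw', h3⟩
      obtain ⟨M, hM, a, ha, h4⟩ := reach1 hδ'0 (min_le_right _ _) hne hw' h3
      obtain ⟨u', hu', hl, h5⟩ := h1 M (show ‖M - I2‖ < δ from lt_of_lt_of_le hM (min_le_left _ _))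
      refine ⟨hw', u', ?_, hu', by rw [hl]; exact hPu, ?_⟩
      · intro h0
        rw [h0] at hl
        exact hu (List.length_eq_zero_iff.1 hl.symm)
      · rw [h5, h4, cr_smul_left, cr_self, mul_zero]
  set A : Set (ℂ × ℂ) := {w | w ≠ 0 ∧ ∃ u : List E2, u ≠ [] ∧ Ok ε u ∧ g ∣ u.length ∧
      cr (Ph x u c) w = 0} with hA
  set B : Set (ℂ × ℂ) := {w | w ≠ 0 ∧ ∃ u : List E2, u ≠ [] ∧ Ok ε u ∧ ¬ g ∣ u.length ∧
      cr (Ph x u c) w = 0} with hB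
  have hdisj : Disjoint A B := by
    rw [Set.disjoint_left]
    rintro p ⟨hp, u, -, hu, hgu, hup⟩ ⟨-, v, -, hv, hgv, hvp⟩
    obtain ⟨-, w, -, hw, hwc⟩ := hI p hp c hc0
    have key : ∀ u : List E2, Ok ε u → cr (Ph x u c) p = 0 → g ∣ u.length + w.length := by
      intro u hu hup
      apply hgS
      refine (hSm _).2 ⟨u ++ w, hu.app hw, by simp, ?_⟩
      rw [Ph_append]
      have h3 : cr (Ph x w (Ph x u c)) (Ph x w p) = 0 := Ph_cr (Ph_ne hx hε1 hu hc0) hp hup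
      exact cr_trans (Ph_ne hx hε1 hw hp) h3 hwc
    have h1 := (Nat.dvd_add_right hgu).1 (key u hu hup)
    exact hgv ((Nat.dvd_add_left h1).1 (key v hv hvp))
  have hcov : ({0}ᶜ : Set (ℂ × ℂ)) ⊆ A ∪ B := by
    intro p hp
    obtain ⟨-, u, hu0, hu, huc⟩ := hI c hc0 p hp
    by_cases h : g ∣ u.length
    · exact Or.inl ⟨hp, u, hu0, hu, h, huc⟩
    · exact Or.inr ⟨hp, u, hu0, hu, h, huc⟩
  have hrank : 1 < Module.rank ℝ (ℂ × ℂ) := by
    rw [rank_prod', Complex.rank_real_complex]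
    norm_num
  have hconn : IsPreconnected ({0}ᶜ : Set (ℂ × ℂ)) :=
    (isConnected_compl_singleton_of_one_lt_rank hrank 0).isPreconnected
  have hcA : c ∈ A := by
    obtain ⟨-, u, hu0, hu, huc⟩ := hI c hc0 c hc0
    exact ⟨hc0, u, hu0, hu, hgS _ ((hSm _).2 ⟨u, hu, rfl, huc⟩), huc⟩
  have hI2 : Ok ε [I2] := ok_single (I2_mem hε)
  have hne2 : Ph x [I2] c ≠ 0 := Ph_ne hx hε1 hI2 hc0
  have hcB : Ph x [I2] c ∈ B := ⟨hne2, [I2], by simp, hI2, hg1, cr_self _⟩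
  rcases hconn.subset_or_subset (hopen fun n => g ∣ n) (hopen fun n => ¬ g ∣ n) hdisj hcov
    with h | h
  · exact Set.disjoint_left.1 hdisj (h hne2) hcB
  · exact Set.disjoint_left.1 hdisj hcA (h hc0)

end Pool.Agent.W739.RC
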