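import Mathlib
import Pool.Agent.W739.RC.Disc

/-! Blocks of equal length which steer all points to a disc about a critical point. -/

set_option autoImplicit false

open Topology Filter Metric Set
open scoped OnePoint

namespace Pool.Agent.W739.RC

open Pool.Agent.H790R3.RB

variable {d : ℕ}

theorem fin_rad {c e : ℂ × ℂ} {ι : Type} [DecidableEq ι] (F : Finset ι) {P : ι → ℂ × ℂ → Prop}
    (h : ∀ i ∈ F, ∃ ρ : ℝ, 0 < ρ ∧ ∀ p ∈ Dk c e ρ, P i p) :
    ∃ ρ : ℝ, 0 < ρ ∧ ∀ i ∈ F, ∀ p ∈ Dk c e ρ, P i p := by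
  induction F using Finset.induction_on with
  | empty => exact ⟨1, one_pos, fun i hi => absurd hi (Finset.notMem_empty i)⟩
  | insert i F hi ih =>
    obtain ⟨ρ, hρ, h1⟩ := ih fun j hj => h j (Finset.mem_insert_of_mem hj)
    obtain ⟨ρ', hρ', h2⟩ := h i (Finset.mem_insert_self i F)
    refine ⟨min ρ ρ', lt_min hρ hρ', fun j hj p hp => ?_⟩
    rcases Finset.mem_insert.1 hj with rfl | hj
    · exact h2 p (Dk_mono (min_le_right _ _) hp)
    · exact h1 j hj p (Dk_mono (min_le_left _ _) hp)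

/-- powers of a word -/
def rep (σ : List E2) : ℕ → List E2
  | 0 => []
  | m + 1 => σ ++ rep σ m

theorem rep_length (σ : List E2) (m : ℕ) : (rep σ m).length = m * σ.length := by
  induction m with
  | zero => simp [rep]
  | succ m ih => rw [rep, List.length_append, ih]; ring

theorem rep_ok {ε : ℝ} {σ : List E2} (h : Ok ε σ) (m : ℕ) : Ok ε (rep σ m) := by
  induction m with
  | zero => exact ok_nil ε
  | succ m ih => exact h.app ih

/-- the result of the construction -/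
structure Blocks (x : CV d) (ε : ℝ) (W₁ W₂ : Set (ℂ × ℂ)) (s L T : ℕ) (B : Fin s → List E2) :
    Prop where
  L0 : 0 < L
  ok : ∀ i, Ok ε (B i)
  len : ∀ i, (B i).length = L
  map : ∀ i, ∀ p ∈ W₁, Ph x (B i) p ∈ W₂
  ctl : ∀ p, p ≠ 0 → ∃ i, Ph x (B i) p ∈ W₁
  tail : ∀ t ≥ T, ∃ τ : List E2, Ok ε τ ∧ τ.length = t ∧ ∀ p ∈ W₁, Ph x τ p ∈ W₂
  ne : ∀ p ∈ W₁, p ≠ 0
  cone : ∀ p ∈ W₁, ∀ a : ℂ, a ≠ 0 → a • p ∈ W₁
  sub : W₂ ⊆ W₁
  mar : ∃ δ : ℝ, 0 < δ ∧ ∀ p ∈ W₂, ∀ M ∈ Bl δ, mv M p ∈ W₁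
  off : ∃ e : ℂ × ℂ, e ≠ 0 ∧ ∃ r : ℝ, 0 < r ∧ ∀ p ∈ W₁, r * ‖p‖ ≤ ‖cr e p‖

theorem blocks (hd : 2 ≤ d) {x : CV d} (hx : ND x) {ε ε' : ℝ} (hε' : 0 < ε') (hε : ε' < ε)
    (hε1 : ε ≤ 1 / 2) (hI : ∀ p : ℂ × ℂ, p ≠ 0 → ∀ e : ℂ × ℂ, e ≠ 0 → e ∈ Rc x ε' p) :
    ∃ (W₁ W₂ : Set (ℂ × ℂ)) (s L T : ℕ) (B : Fin s → List E2), Blocks x ε W₁ W₂ s L T B := by
  classical
  have hε'1 : ε' ≤ 1 / 2 := by linarith
  obtain ⟨c, hc0, hcw⟩ := exists_crit hd hx
  obtain ⟨e, he, -⟩ := exists_frame hc0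
  obtain ⟨-, σ, hσ0, hσ, hσc⟩ := hI c hc0 c hc0
  obtain ⟨r₀, hr₀, hsup⟩ := superatt hd hx hc0 hcw he hσ0 (Ph_ne hx hε'1 hσ hc0) hσc
  have hls : 0 < σ.length := List.length_pos_iff.2 hσ0
  set ls := σ.length with hlsd
  -- powers of the loop
  have hrep : ∀ m : ℕ, ∀ r : ℝ, r ≤ r₀ → ∀ p ∈ Dk c e r, Ph x (rep σ m) p ∈ Dk c e (r / 2 ^ m) := by
    intro m
    induction m with
    | zero => intro r _ p hp; simpa [rep, Ph] using hp
    | succ m ih =>
      intro r hr p hp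
      rw [rep, Ph_append]
      have h1 := ih (r / 2) (by linarith) _ (hsup r hr p hp)
      rw [pow_succ', ← div_div]
      exact h1
  have hrepc : ∀ m : ℕ, cr (Ph x (rep σ m) c) c = 0 := by
    intro m
    induction m with
    | zero => exact cr_self c
    | succ m ih =>
      rw [rep, Ph_append]
      exact cr_trans (Ph_ne hx hε'1 (rep_ok hσ m) hc0) (Ph_cr (Ph_ne hx hε'1 hσ hc0) hc0 hσc) ih
  -- loops of all large lengths
  obtain ⟨T, hT⟩ := loops hx hε' hε'1 hI hc0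
  choose! lam hlok hllen hlc using hT
  -- a radius for the loops
  obtain ⟨ρ, hρ, hρl⟩ := fin_rad (c := c) (e := e) (Finset.Ico T (T + ls))
    (P := fun t p => Ph x (lam t) p ∈ Dk c e r₀) (by
      intro t ht
      have ht' := (Finset.mem_Ico.1 ht).1
      exact loop_cont hc0 he (Ph_ne hx hε'1 (hlok t ht') hc0) (hlc t ht') hr₀)
  -- loops of length `N` which map `Dk ρ` to `Dk r₀`
  set Lam : ℕ → List E2 := fun N => lam (T + (N - T) % ls) ++ rep σ ((N - T) / ls) with hLam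
  have hLok : ∀ N ≥ T, Ok ε' (Lam N) := fun N _ => (hlok _ (Nat.le_add_right _ _)).app (rep_ok hσ _)
  have hLlen : ∀ N ≥ T, (Lam N).length = N := by
    intro N hN
    rw [hLam]
    simp only
    rw [List.length_append, hllen _ (Nat.le_add_right _ _), rep_length, ← hlsd]
    have h1 : (N - T) % ls + (N - T) / ls * ls = N - T := Nat.mod_add_div' (N - T) ls
    omega
  have hLc : ∀ N ≥ T, cr (Ph x (Lam N) c) c = 0 := by
    intro N hN
    rw [hLam]
    simp only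
    rw [Ph_append]
    exact cr_trans (Ph_ne hx hε'1 (rep_ok hσ _) hc0)
      (Ph_cr (Ph_ne hx hε'1 (hlok _ (Nat.le_add_right _ _)) hc0) hc0
        (hlc _ (Nat.le_add_right _ _))) (hrepc _)
  have hLmap : ∀ N ≥ T, ∀ p ∈ Dk c e ρ, Ph x (Lam N) p ∈ Dk c e r₀ := by
    intro N hN p hp
    rw [hLam]
    simp only
    rw [Ph_append]
    have h1 := hρl (T + (N - T) % ls) (Finset.mem_Ico.2 ⟨Nat.le_add_right _ _,
      Nat.add_lt_add_left (Nat.mod_lt _ hls) _⟩) p hp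
    refine Dk_mono ?_ (hrep ((N - T) / ls) r₀ le_rfl _ h1)
    exact div_le_self hr₀.le (one_le_pow₀ (by norm_num))
  -- steering
  obtain ⟨ρ', hρ', hadj⟩ := adjust (d := d) hε he hρ
  have hI2 : Ok ε' [I2] := ok_single (I2_mem hε')
  have hκ : ∀ z : ℂ × ℂ, z ≠ 0 → ∃ u : List E2, Ok ε u ∧ cr (Ph x u c) c = 0 ∧
      Ph x u z ∈ Dk c e ρ := by
    intro z hz
    obtain ⟨u, hu, h1, h2⟩ := pairs hd hx hε' hε'1 hI (Dk_open (c := c) (e := e) ρ')
      (fun p hp a ha => Dk_cone hp ha) (Dk_self he hρ') hc0 (Ph_ne hx hε'1 hI2 hc0)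
      (Ph_ne hx hε'1 hI2 hz)
    rw [← Ph_append] at h1 h2
    obtain ⟨u', hu', h3, h4⟩ := hadj x ([I2] ++ u) (by simp) (hI2.app hu) z h1 h2
    exact ⟨u', hu', h3, h4⟩
  choose! κ hκok hκc hκz using hκ
  have hne : ∀ p ∈ sphere (0 : ℂ × ℂ) 1, p ≠ 0 := fun p hp h0 => by
    rw [h0, mem_sphere_iff_norm, sub_zero, norm_zero] at hp
    exact zero_ne_one hp
  obtain ⟨t, ht, htc⟩ := (isCompact_sphere (0 : ℂ × ℂ) 1).elim_nhds_subcover
    (fun z => (Ph x (κ z)) ⁻¹' Dk c e ρ) fun z hz =>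
      ((Dk_open ρ).preimage (Ph_continuous x (κ z))).mem_nhds (hκz z (hne z hz))
  -- equal lengths
  set ℓ := t.sup (fun z => (κ z).length) + T with hℓ
  have hlen : ∀ z ∈ t, T ≤ ℓ - (κ z).length ∧ (κ z).length ≤ ℓ := by
    intro z hz
    have : (κ z).length ≤ t.sup (fun z => (κ z).length) :=
      Finset.le_sup (f := fun z => (κ z).length) hz
    omega
  set κ' : ℂ × ℂ → List E2 := fun z => κ z ++ Lam (ℓ - (κ z).length) with hκ'
  have hκ'ok : ∀ z ∈ t, Ok ε (κ' z) := fun z hz =>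
    (hκok z (hne z (ht z hz))).app ((hLok _ (hlen z hz).1).mono hε.le)
  have hκ'len : ∀ z ∈ t, (κ' z).length = ℓ := by
    intro z hz
    rw [hκ']
    simp only
    rw [List.length_append, hLlen _ (hlen z hz).1]
    have := (hlen z hz).2
    omega
  have hκ'c : ∀ z ∈ t, cr (Ph x (κ' z) c) c = 0 := by
    intro z hz
    rw [hκ']
    simp only
    rw [Ph_append]
    have h1 := hκok z (hne z (ht z hz))
    exact cr_trans (Ph_ne hx hε'1 (hLok _ (hlen z hz).1) hc0)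
      (Ph_cr (Ph_ne hx hε1 h1 hc0) hc0 (hκc z (hne z (ht z hz)))) (hLc _ (hlen z hz).1)
  have hκ'z : ∀ p : ℂ × ℂ, p ≠ 0 → ∃ z ∈ t, Ph x (κ' z) p ∈ Dk c e r₀ := by
    intro p hp
    have hp' : nrm p ∈ sphere (0 : ℂ × ℂ) 1 := by
      rw [mem_sphere_iff_norm, sub_zero]; exact nrm_norm hp
    obtain ⟨z, hz, h1⟩ := mem_iUnion₂.1 (htc hp')
    refine ⟨z, hz, ?_⟩
    have h2 : Ph x (κ' z) (nrm p) ∈ Dk c e r₀ := by
      rw [hκ']
      simp only
      rw [Ph_append]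
      exact hLmap _ (hlen z hz).1 _ h1
    have h3 : p = ((‖p‖ : ℝ) : ℂ) • nrm p := by
      rw [nrm, smul_smul, mul_inv_cancel₀, one_smul]
      exact_mod_cast norm_ne_zero_iff.2 hp
    rw [h3, Ph_smul]
    refine Dk_cone h2 (pow_ne_zero _ ?_)
    exact_mod_cast norm_ne_zero_iff.2 hp
  -- the radius of the trap
  obtain ⟨r₂, hr₂, hr₂m⟩ := fin_rad (c := c) (e := e) t
    (P := fun z p => Ph x (κ' z) p ∈ Dk c e r₀) (by
      intro z hz
      exact loop_cont hc0 he (Ph_ne hx hε1 (hκ'ok z hz) hc0) (hκ'c z hz) hr₀)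
  set r₁ := min r₂ ρ with hr₁
  have hr₁0 : 0 < r₁ := lt_min hr₂ hρ
  obtain ⟨m, hm⟩ : ∃ m : ℕ, r₀ / 2 ^ m ≤ r₁ / 2 := by
    obtain ⟨m, hm⟩ := exists_nat_gt (2 * r₀ / r₁)
    refine ⟨m, ?_⟩
    have h1 : (m : ℝ) < 2 ^ m := by exact_mod_cast Nat.lt_two_pow_self
    rw [div_lt_iff₀ hr₁0] at hm
    rw [div_le_iff₀ (by positivity)]
    nlinarith
  have hrm : ∀ p ∈ Dk c e r₀, Ph x (rep σ m) p ∈ Dk c e (r₁ / 2) := fun p hp =>
    Dk_mono hm (hrep m r₀ le_rfl p hp)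
  refine ⟨Dk c e r₁, Dk c e (r₁ / 2), t.card, ℓ + m * ls, T + m * ls,
    fun i => κ' (t.equivFin.symm i) ++ rep σ m, ?_⟩
  have htne : t.Nonempty := by
    obtain ⟨z, hz, -⟩ := hκ'z c hc0
    exact ⟨z, hz⟩
  refine ⟨?_, ?_, ?_, ?_, ?_, ?_, fun p hp => Dk_ne hp, fun p hp a ha => Dk_cone hp ha,
    Dk_mono (by linarith), Dk_mar he (by linarith), Dk_off he hr₁0⟩
  · obtain ⟨z, hz⟩ := htne
    have h1 := hκ'len z hz
    by_contra h0
    have h2 : ℓ = 0 := by omega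
    have h3 : m = 0 := by
      rcases Nat.eq_zero_or_pos m with h | h
      · exact h
      · have := Nat.mul_pos h hls
        omega
    -- a word of length zero does not move points
    have h4 : κ' z = [] := List.length_eq_zero_iff.1 (h1.trans h2)
    have h5 : ∀ z' ∈ t, κ' z' = [] := fun z' hz' =>
      List.length_eq_zero_iff.1 ((hκ'len z' hz').trans h2)
    obtain ⟨z', hz', h6⟩ := hκ'z e (fun h => by rw [h] at he; simp [cr] at he)
    rw [h5 z' hz'] at h6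
    exact Dk_cr h6 (cr_self e)
  · intro i
    exact (hκ'ok _ (t.equivFin.symm i).2).app ((rep_ok hσ m).mono hε.le)
  · intro i
    rw [List.length_append, hκ'len _ (t.equivFin.symm i).2, rep_length]
  · intro i p hp
    rw [Ph_append]
    exact hrm _ (hr₂m _ (t.equivFin.symm i).2 p (Dk_mono (min_le_left _ _) hp))
  · intro p hp
    obtain ⟨z, hz, h1⟩ := hκ'z p hp
    refine ⟨t.equivFin ⟨z, hz⟩, ?_⟩
    simp only [Equiv.symm_apply_apply]
    rw [Ph_append]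
    exact Dk_mono (by linarith) (hrm _ h1)
  · intro N hN
    have hN' : T ≤ N - m * ls := by omega
    refine ⟨Lam (N - m * ls) ++ rep σ m, ((hLok _ hN').app (rep_ok hσ m)).mono hε.le, ?_, ?_⟩
    · rw [List.length_append, hLlen _ hN', rep_length, ← hlsd]
      omega
    · intro p hp
      rw [Ph_append]
      exact hrm _ (hLmap _ hN' p (Dk_mono (min_le_right _ _) hp))

end Pool.Agent.W739.RC
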