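import Mathlib
import Pool.Agent.W739.RC.Rch
import Pool.Agent.W739.PC.Ms2

/-! The case that some reachable cone is not everything. -/

set_option autoImplicit false

open Topology Filter Metric Set MeasureTheory
open scoped OnePoint ENNReal

namespace Pool.Agent.W739.RC

open Pool.Agent.H790R3.RB
open Pool.Agent.W739.PC (orbF gB final_le exists_kappa)

variable {d : ℕ}

/-- the union of the reachable cones which are not everything -/
def UU (x : CV d) (ε : ℝ) : Set (ℂ × ℂ) :=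
  {w | ∃ q : ℂ × ℂ, q ≠ 0 ∧ (∃ e : ℂ × ℂ, e ≠ 0 ∧ e ∉ Rc x ε q) ∧ w ∈ Rc x ε q}

theorem UU_open {x : CV d} (hx : ND x) {ε : ℝ} (hε1 : ε ≤ 1 / 2) : IsOpen (UU x ε) := by
  rw [isOpen_iff_mem_nhds]
  rintro w ⟨q, hq, he, hw⟩
  exact Filter.mem_of_superset ((Rc_open hx hε1 hq).mem_nhds hw) fun w' hw' => ⟨q, hq, he, hw'⟩

theorem UU_IC {x : CV d} (hx : ND x) {ε : ℝ} (hε1 : ε ≤ 1 / 2) : IC x ε (UU x ε) := by
  refine ⟨?_, ?_, ?_⟩
  · rintro w ⟨q, hq, he, hw⟩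
    exact hw.1
  · rintro w ⟨q, hq, he, hw⟩ a ha
    exact ⟨q, hq, he, (Rc_IC hx hε1 hq).cone w hw a ha⟩
  · rintro w ⟨q, hq, he, hw⟩ M hM
    exact ⟨q, hq, he, (Rc_IC hx hε1 hq).step w hw M hM⟩

/-- control -/
theorem ctl {x : CV d} (hx : ND x) {ε : ℝ} (hε : 0 < ε) (hε1 : ε ≤ 1 / 2)
    (hII : ∃ p₀ : ℂ × ℂ, p₀ ≠ 0 ∧ ∃ e : ℂ × ℂ, e ≠ 0 ∧ e ∉ Rc x ε p₀) :
    ∃ N : ℕ, 0 < N ∧ ∀ p : ℂ × ℂ, p ≠ 0 → ∃ u : List E2, Ok ε u ∧ u.length = N ∧
      Ph x u p ∈ UU x ε := by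
  obtain ⟨p₀, hp₀, e₀, he₀, hne₀⟩ := hII
  have hIC := UU_IC hx hε1 (ε := ε)
  have hI : Ok ε [I2] := ok_single (I2_mem hε)
  have h1 : ∀ p : ℂ × ℂ, p ≠ 0 → ∃ u : List E2, Ok ε u ∧ Ph x u p ∈ UU x ε := by
    intro p hp
    by_cases h : ∃ e : ℂ × ℂ, e ≠ 0 ∧ e ∉ Rc x ε p
    · exact ⟨[I2], hI, p, hp, h, Ph_ne hx hε1 hI hp, [I2], by simp, hI, cr_self _⟩
    · push Not at h
      have h2 : Ph x [I2] p₀ ≠ 0 := Ph_ne hx hε1 hI hp₀
      have h3 : Ph x [I2] p₀ ∈ UU x ε :=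
        ⟨p₀, hp₀, ⟨e₀, he₀, hne₀⟩, h2, [I2], by simp, hI, cr_self _⟩
      obtain ⟨-, u, -, hu, hc⟩ := h _ h2
      exact ⟨u, hu, hIC.par h3 (Ph_ne hx hε1 hu hp) hc⟩
  choose! u hu huU using h1
  have hK : IsCompact (sphere (0 : ℂ × ℂ) 1) := isCompact_sphere _ _
  have hne : ∀ p ∈ sphere (0 : ℂ × ℂ) 1, p ≠ 0 := fun p hp h0 => by
    rw [h0, mem_sphere_iff_norm, sub_zero, norm_zero] at hp
    exact zero_ne_one hp
  obtain ⟨t, ht, htc⟩ := hK.elim_nhds_subcover (fun p => (Ph x (u p)) ⁻¹' UU x ε) fun p hp =>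
    ((UU_open hx hε1).preimage (Ph_continuous x (u p))).mem_nhds (huU p (hne p hp))
  refine ⟨t.sup (fun p => (u p).length) + 1, Nat.succ_pos _, fun p hp => ?_⟩
  have hp' : ‖p‖ ≠ 0 := norm_ne_zero_iff.2 hp
  set a : ℂ := ((‖p‖ : ℝ) : ℂ) with ha
  have ha0 : a ≠ 0 := by rw [ha]; exact_mod_cast hp'
  set p' : ℂ × ℂ := a⁻¹ • p with hp'd
  have hpp : p = a • p' := by rw [hp'd, smul_smul, mul_inv_cancel₀ ha0, one_smul]
  have hp1 : p' ∈ sphere (0 : ℂ × ℂ) 1 := by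
    rw [mem_sphere_iff_norm, sub_zero, hp'd, norm_smul, norm_inv, ha, Complex.norm_real,
      norm_norm, inv_mul_cancel₀ hp']
  obtain ⟨q, hq, hqp⟩ := mem_iUnion₂.1 (htc hp1)
  have hlen : (u q).length ≤ t.sup (fun p => (u p).length) :=
    Finset.le_sup (f := fun p => (u p).length) hq
  set m := t.sup (fun p => (u p).length) + 1 - (u q).length with hm
  have hrep : Ok ε (List.replicate m I2) := by
    intro M hM
    rw [List.eq_of_mem_replicate hM]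
    exact I2_mem hε
  refine ⟨u q ++ List.replicate m I2, (hu q (hne q (ht q hq))).app hrep, ?_, ?_⟩
  · rw [List.length_append, List.length_replicate, hm]
    omega
  · rw [Ph_append]
    apply hIC.word hrep
    rw [hpp, Ph_smul]
    exact hIC.cone _ hqp _ (pow_ne_zero _ ha0)

/-- one step -/
noncomputable def stp (x : CV d) (M : E2) (p : ℂ × ℂ) : ℂ × ℂ := mv M (hF x p)

theorem orbF_ofFn (x : CV d) (n : ℕ) (ω : Fin n → E2) (p : ℂ × ℂ) :
    orbF (stp x) n ω p = Ph x (List.ofFn ω) p := by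
  induction n generalizing p with
  | zero => rfl
  | succ n ih =>
    rw [List.ofFn_succ]
    exact ih _ _

theorem stp_continuous (x : CV d) : Continuous fun q : E2 × (ℂ × ℂ) => stp x q.1 q.2 :=
  mv_continuous.comp (continuous_fst.prodMk ((hF_differentiable x).continuous.comp continuous_snd))

theorem ofFn_rotate {E : Type} {n : ℕ} (ω : Fin (n + 1) → E) {u v : List E}
    (h : List.ofFn ω = u ++ v) (hv : v ≠ []) :
    ∃ i : Fin (n + 1), List.ofFn (ω ∘ Equiv.addRight i) = v ++ u ∧ (i : ℕ) = u.length := by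
  have hlen : u.length + v.length = n + 1 := by
    rw [← List.length_append, ← h, List.length_ofFn]
  have hv' : 0 < v.length := List.length_pos_iff.2 hv
  refine ⟨⟨u.length, by omega⟩, ?_, rfl⟩
  have h1 : v ++ u = (List.ofFn ω).rotate u.length := by
    rw [h, List.rotate_append_length_eq]
  rw [h1]
  apply List.ext_getElem
  · simp
  · intro k hk1 hk2
    rw [List.getElem_rotate, List.getElem_ofFn, List.getElem_ofFn]
    simp only [Function.comp_apply, Equiv.coe_addRight, List.length_ofFn]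
    congr 1

theorem vol_Bl (ε : ℝ) : volume (Bl ε) ≠ ⊤ := by
  have h1 : Bl ε ⊆ closedBall I2 ε := by
    intro M hM
    rw [mem_closedBall, dist_eq_norm]
    exact le_of_lt hM
  exact ((measure_mono h1).trans_lt (isCompact_closedBall _ _).measure_lt_top).ne

instance instOpenPosE2 : (volume : Measure E2).IsOpenPosMeasure := by
  have : (volume : Measure (Fin 2 → ℂ)).IsOpenPosMeasure := inferInstance
  rw [volume_pi]
  infer_instance

theorem closed_wr (x : CV d) : IsClosed {q : E2 × (ℂ × ℂ) | wr x q.2 = 0} := by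
  have h0 : Continuous fun q : CV d × (ℂ × ℂ) => wr q.1 q.2 := (wr_contDiff d 1).continuous
  have h1 : Continuous (wr x) := by
    have h2 := h0.comp (Continuous.prodMk_right x)
    exact h2
  exact (isClosed_singleton (x := (0 : ℂ))).preimage (h1.comp continuous_snd)

theorem main2 (hd : 2 ≤ d) {x : CV d} (hx : ND x) {ε : ℝ} (hε : 0 < ε) (hε1 : ε ≤ 1 / 2)
    (hII : ∃ p₀ : ℂ × ℂ, p₀ ≠ 0 ∧ ∃ e : ℂ × ℂ, e ≠ 0 ∧ e ∉ Rc x ε p₀) :
    ∃ C c : ℝ, 0 < c ∧ ∀ n : ℕ,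
      volume {ω : Fin (n + 1) → E2 | (∀ i, ω i ∈ Bl ε) ∧ ¬ HypTop (Sg x (List.ofFn ω))} ≤
        ENNReal.ofReal (C * Real.exp (-c * ((n + 1 : ℕ) : ℝ))) * volume (Bl ε) ^ (n + 1) := by
  classical
  obtain ⟨N, hN, hctl⟩ := ctl hx hε hε1 hII
  have hIC := UU_IC hx hε1 (ε := ε)
  have hUo := UU_open hx hε1 (ε := ε)
  obtain ⟨Cr, hCr1, hCr2⟩ := exists_Cr hd hx
  have hst := stp_continuous x
  have habs : ∀ q ∈ Bl ε, ∀ z ∈ UU x ε, stp x q z ∈ UU x ε := fun q hq z hz => hIC.step z hz q hq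
  have hinv : ∀ q ∈ Bl ε, ∀ z ∈ {p : ℂ × ℂ | p ≠ 0}, stp x q z ∈ {p : ℂ × ℂ | p ≠ 0} := by
    intro q hq z hz
    exact Ph_ne hx hε1 (ok_single hq) hz
  have hscale : ∀ (n : ℕ) (ω : Fin n → E2) (a : ℂ) (p : ℂ × ℂ), a ≠ 0 →
      orbF (stp x) n ω p ∈ UU x ε → orbF (stp x) n ω (a • p) ∈ UU x ε := by
    intro n ω a p ha h
    rw [orbF_ofFn] at h ⊢
    rw [Ph_smul]
    exact hIC.cone _ h _ (pow_ne_zero _ ha)
  obtain ⟨κ, hκ1, hκ⟩ := exists_kappa (ν := (volume : Measure E2)) (s := Bl ε) (st := stp x)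
    (U := UU x ε) (isOpen_Bl ε) ⟨I2, I2_mem hε⟩ (vol_Bl ε) hst hUo habs
    (X₀ := {p : ℂ × ℂ | p ≠ 0}) (K := sphere (0 : ℂ × ℂ) 1) (isCompact_sphere _ _) (N := N)
    (by
      intro p hp
      right
      have hp' : ‖p‖ ≠ 0 := norm_ne_zero_iff.2 hp
      set a : ℂ := ((‖p‖ : ℝ) : ℂ) with ha
      have ha0 : a ≠ 0 := by rw [ha]; exact_mod_cast hp'
      refine ⟨a⁻¹ • p, ?_, ?_⟩
      · rw [mem_sphere_iff_norm, sub_zero, norm_smul, norm_inv, ha, Complex.norm_real,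
          norm_norm, inv_mul_cancel₀ hp']
      · intro ω h
        have h1 := hscale N ω a _ ha0 h
        rwa [smul_smul, mul_inv_cancel₀ ha0, one_smul] at h1)
    (by
      intro p hp
      have hp0 : p ≠ 0 := fun h0 => by
        rw [h0, mem_sphere_iff_norm, sub_zero, norm_zero] at hp
        exact zero_ne_one hp
      obtain ⟨u, hu, hl, hU⟩ := hctl p hp0
      subst hl
      refine ⟨fun k => u.get k, fun k => hu _ (List.get_mem _ _), ?_⟩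
      rw [orbF_ofFn, List.ofFn_get]
      exact hU)
  have hZc : IsClosed {q : E2 × (ℂ × ℂ) | ‖q.2‖ = 1 ∧ wr x q.2 = 0} :=
    (isClosed_eq (continuous_norm.comp continuous_snd) continuous_const).inter (closed_wr x)
  set Z : Set (E2 × (ℂ × ℂ)) := {q : E2 × (ℂ × ℂ) | ‖q.2‖ = 1 ∧ wr x q.2 = 0} with hZ
  have hF : ∀ q ∈ Bl ε, ∃ F : Finset (ℂ × ℂ), F.card ≤ Cr.card ∧
      (∀ c ∈ F, stp x q c ∈ {p : ℂ × ℂ | p ≠ 0}) ∧
      ∀ c, (q, c) ∈ Z → ∃ c' ∈ F, ∀ (n : ℕ) (ω : Fin n → E2),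
        orbF (stp x) n ω (stp x q c') ∈ UU x ε → orbF (stp x) n ω (stp x q c) ∈ UU x ε := by
    intro q hq
    refine ⟨Cr, le_rfl, fun c hc => hinv q hq c (hCr1 c hc).1, ?_⟩
    rintro c ⟨hc1, hc2⟩
    have hc0 : c ≠ 0 := fun h0 => by
      simp only [h0, norm_zero] at hc1
      exact zero_ne_one hc1
    obtain ⟨c', hc', a, ha, hca⟩ := hCr2 c hc0 hc2
    refine ⟨c', hc', fun n ω h => ?_⟩
    have h1 : stp x q c = a ^ d • stp x q c' := by
      unfold stp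
      rw [hca, hF_smul, mv_smul]
    rw [h1]
    exact hscale n ω _ _ (pow_ne_zero _ ha) h
  obtain ⟨C, c, hc, hC⟩ := final_le (isOpen_Bl ε) (vol_Bl ε) hst hUo habs hinv hN hκ1 hκ hZc
    Cr.card hF
  refine ⟨C, c, hc, fun n => le_trans (measure_mono ?_) (hC n)⟩
  rintro ω ⟨hω, hnh⟩
  refine ⟨hω, ?_⟩
  by_contra hgood
  push Not at hgood
  apply hnh
  have hok : Ok ε (List.ofFn ω) := by
    intro M hM
    rw [List.mem_ofFn] at hM
    obtain ⟨i, rfl⟩ := hM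
    exact hω i
  refine hyp_word hd hx hε1 hok fun u v huv hv c hc0 hc1 => ?_
  obtain ⟨i, hi, -⟩ := ofFn_rotate ω huv hv
  have hc' : ‖c‖ ≠ 0 := norm_ne_zero_iff.2 hc0
  set a : ℂ := ((‖c‖ : ℝ) : ℂ) with ha
  have ha0 : a ≠ 0 := by rw [ha]; exact_mod_cast hc'
  have hhom := (WR d x hd).1
  have h1 : orbF (stp x) (n + 1) (ω ∘ Equiv.addRight i) (a⁻¹ • c) ∈ UU x ε := by
    refine hgood i (a⁻¹ • c) ⟨?_, ?_⟩
    · show ‖a⁻¹ • c‖ = 1
      rw [norm_smul, norm_inv, ha, Complex.norm_real, norm_norm, inv_mul_cancel₀ hc']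
    · show wr x (a⁻¹ • c) = 0
      rw [hhom, hc1, mul_zero]
  have h2 := hscale _ _ a _ ha0 h1
  rw [smul_smul, mul_inv_cancel₀ ha0, one_smul, orbF_ofFn, hi, Ph_append] at h2
  have hok' := hok
  rw [huv] at hok'
  have h3 := hIC.word hok'.right h2
  have h4 : Ph x v (Ph x u (Ph x v c)) = (Ph x (List.ofFn ω))^[1] (Ph x v c) := by
    rw [Function.iterate_one, huv, Ph_append]
  rw [h4] at h3
  obtain ⟨q, hq, he, hW⟩ := h3
  exact ⟨1, Rc x ε q, (Rc_IC hx hε1 hq).PT hd hx hε hε1 he hok (by rw [huv]; simp [hv]), hW⟩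

end Pool.Agent.W739.RC
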