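import Mathlib
import Pool.Agent.W739.RC.Blk
import Pool.Agent.W739.RC.C2

/-! Counting: a word of blocks for which all critical points are absorbed. -/

set_option autoImplicit false

open Topology Filter Metric Set MeasureTheory
open scoped OnePoint

namespace Pool.Agent.W739.RC

open Pool.Agent.H790R3.RB

variable {d : ℕ}

/-- the word of a sequence of blocks -/
def flat {s : ℕ} (B : Fin s → List E2) : (n : ℕ) → (Fin n → Fin s) → List E2
  | 0, _ => []
  | n + 1, α => B (α 0) ++ flat B n (Fin.tail α)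

theorem flat_length {s L : ℕ} {B : Fin s → List E2} (h : ∀ i, (B i).length = L) (n : ℕ)
    (α : Fin n → Fin s) : (flat B n α).length = n * L := by
  induction n with
  | zero => simp [flat]
  | succ n ih => rw [flat, List.length_append, ih, h]; ring

theorem flat_ok {s : ℕ} {ε : ℝ} {B : Fin s → List E2} (h : ∀ i, Ok ε (B i)) (n : ℕ)
    (α : Fin n → Fin s) : Ok ε (flat B n α) := by
  induction n with
  | zero => exact ok_nil ε
  | succ n ih => exact (h _).app (ih _)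

theorem flat_map {x : CV d} {s : ℕ} {B : Fin s → List E2} {U : Set (ℂ × ℂ)}
    (h : ∀ i, ∀ p ∈ U, Ph x (B i) p ∈ U) (n : ℕ) (α : Fin n → Fin s) {p : ℂ × ℂ} (hp : p ∈ U) :
    Ph x (flat B n α) p ∈ U := by
  induction n generalizing p with
  | zero => exact hp
  | succ n ih =>
    rw [flat, Ph_append]
    exact ih _ (h _ p hp)

open Classical in
/-- the sequences which do not absorb `p` -/
noncomputable def bad (x : CV d) {s : ℕ} (B : Fin s → List E2) (U : Set (ℂ × ℂ)) (n : ℕ)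
    (p : ℂ × ℂ) : Finset (Fin n → Fin s) :=
  Finset.univ.filter fun α => Ph x (flat B n α) p ∉ U

theorem bad_card {x : CV d} (hx : ND x) {ε : ℝ} (hε1 : ε ≤ 1 / 2) {s : ℕ} {B : Fin s → List E2}
    (hB : ∀ i, Ok ε (B i)) {U : Set (ℂ × ℂ)} (h : ∀ i, ∀ p ∈ U, Ph x (B i) p ∈ U)
    (hctl : ∀ p, p ≠ 0 → ∃ i, Ph x (B i) p ∈ U) (n : ℕ) {p : ℂ × ℂ} (hp : p ≠ 0) :
    (bad x B U n p).card ≤ (s - 1) ^ n := by
  classical
  induction n generalizing p with
  | zero =>
    rw [pow_zero]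
    refine (Finset.card_le_univ _).trans ?_
    simp
  | succ n ih =>
    obtain ⟨i₀, hi₀⟩ := hctl p hp
    have h1 : bad x B U (n + 1) p ⊆ (Finset.univ.erase i₀).biUnion fun i =>
        (bad x B U n (Ph x (B i) p)).image fun β => (Fin.cons i β : Fin (n + 1) → Fin s) := by
      intro α hα
      rw [bad, Finset.mem_filter, flat, Ph_append] at hα
      rw [Finset.mem_biUnion]
      refine ⟨α 0, ?_, ?_⟩
      · rw [Finset.mem_erase]
        refine ⟨fun h0 => hα.2 ?_, Finset.mem_univ _⟩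
        rw [h0]
        exact flat_map h n _ hi₀
      · rw [Finset.mem_image]
        refine ⟨Fin.tail α, ?_, Fin.cons_self_tail α⟩
        rw [bad, Finset.mem_filter]
        exact ⟨Finset.mem_univ _, hα.2⟩
    refine (Finset.card_le_card h1).trans (Finset.card_biUnion_le.trans ?_)
    have h2 : ∀ i ∈ Finset.univ.erase i₀, ((bad x B U n (Ph x (B i) p)).image fun β =>
        (Fin.cons i β : Fin (n + 1) → Fin s)).card ≤ (s - 1) ^ n := fun i _ =>
      Finset.card_image_le.trans (ih (Ph_ne hx hε1 (hB i) hp))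
    refine (Finset.sum_le_card_nsmul _ _ _ h2).trans ?_
    rw [Finset.card_erase_of_mem (Finset.mem_univ _), Finset.card_univ, Fintype.card_fin,
      smul_eq_mul, pow_succ']

/-- double counting -/
theorem double {A : Type} [Fintype A] {b₁ b₂ : A → A → Prop} [∀ a b, Decidable (b₁ a b)]
    [∀ a b, Decidable (b₂ a b)] {m₁ m₂ : ℕ}
    (h1 : ∀ a, (Finset.univ.filter fun b => b₁ a b).card ≤ m₁)
    (h2 : ∀ b, (Finset.univ.filter fun a => b₂ a b).card ≤ m₂) (h : m₁ + m₂ < Fintype.card A) :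
    ∃ a b, ¬ b₁ a b ∧ ¬ b₂ a b := by
  by_contra hcon
  push Not at hcon
  have h3 : ∀ a b : A, 1 ≤ (if b₁ a b then 1 else 0) + (if b₂ a b then 1 else 0) := by
    intro a b
    by_cases hb : b₁ a b
    · rw [if_pos hb]; omega
    · rw [if_pos (hcon a b hb)]; omega
  have h4 : ∑ a : A, ∑ b : A, 1 ≤
      ∑ a : A, ∑ b : A, ((if b₁ a b then 1 else 0) + (if b₂ a b then 1 else 0)) :=
    Finset.sum_le_sum fun a _ => Finset.sum_le_sum fun b _ => h3 a b
  have h5 : ∑ a : A, ∑ b : A, ((if b₁ a b then 1 else 0) + (if b₂ a b then 1 else 0)) =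
      ∑ a : A, ∑ b : A, (if b₁ a b then 1 else 0) + ∑ b : A, ∑ a : A, (if b₂ a b then 1 else 0) := by
    simp only [Finset.sum_add_distrib]
    congr 1
    exact Finset.sum_comm
  have h6 : ∑ a : A, ∑ b : A, (if b₁ a b then 1 else 0) ≤ Fintype.card A * m₁ := by
    have : ∀ a ∈ (Finset.univ : Finset A), ∑ b : A, (if b₁ a b then 1 else 0) ≤ m₁ := by
      intro a _
      rw [← Finset.card_filter]
      exact h1 a
    refine (Finset.sum_le_card_nsmul _ _ _ this).trans ?_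
    rw [Finset.card_univ, smul_eq_mul]
  have h7 : ∑ b : A, ∑ a : A, (if b₂ a b then 1 else 0) ≤ Fintype.card A * m₂ := by
    have : ∀ b ∈ (Finset.univ : Finset A), ∑ a : A, (if b₂ a b then 1 else 0) ≤ m₂ := by
      intro b _
      rw [← Finset.card_filter]
      exact h2 b
    refine (Finset.sum_le_card_nsmul _ _ _ this).trans ?_
    rw [Finset.card_univ, smul_eq_mul]
  have h8 : ∑ _a : A, ∑ _b : A, 1 = Fintype.card A * Fintype.card A := by
    simp [Finset.card_univ]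
  rw [h8, h5] at h4
  have h9 : Fintype.card A * (m₁ + m₂) < Fintype.card A * Fintype.card A :=
    Nat.mul_lt_mul_of_pos_left h (by omega)
  have h10 : Fintype.card A * (m₁ + m₂) = Fintype.card A * m₁ + Fintype.card A * m₂ := mul_add _ _ _
  omega

open Classical in
/-- the marks of a word: the images at its end of the critical points of its letters -/
noncomputable def marks (x : CV d) (Cr : Finset (ℂ × ℂ)) (w : List E2) : Finset (ℂ × ℂ) :=
  ((Finset.range w.length) ×ˢ Cr).image fun q => Ph x (w.drop q.1) q.2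

theorem marks_card (x : CV d) (Cr : Finset (ℂ × ℂ)) (w : List E2) :
    (marks x Cr w).card ≤ w.length * Cr.card := by
  classical
  unfold marks
  refine Finset.card_image_le.trans ?_
  rw [Finset.card_product, Finset.card_range]

theorem mem_marks (x : CV d) {Cr : Finset (ℂ × ℂ)} {w u v : List E2} (h : w = u ++ v)
    (hv : v ≠ []) {c : ℂ × ℂ} (hc : c ∈ Cr) : Ph x v c ∈ marks x Cr w := by
  classical
  unfold marks
  rw [Finset.mem_image]
  refine ⟨(u.length, c), ?_, ?_⟩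
  · rw [Finset.mem_product, Finset.mem_range, h, List.length_append]
    have := List.length_pos_iff.2 hv
    exact ⟨by simp only; omega, hc⟩
  · simp only
    rw [h, List.drop_left]

theorem marks_ne {x : CV d} (hx : ND x) {ε : ℝ} (hε1 : ε ≤ 1 / 2) {Cr : Finset (ℂ × ℂ)}
    (hCr : ∀ c ∈ Cr, c ≠ 0) {w : List E2} (hw : Ok ε w) {q : ℂ × ℂ} (hq : q ∈ marks x Cr w) :
    q ≠ 0 := by
  classical
  unfold marks at hq
  rw [Finset.mem_image] at hq
  obtain ⟨⟨k, c⟩, h1, rfl⟩ := hq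
  rw [Finset.mem_product] at h1
  exact Ph_ne hx hε1 (fun M hM => hw M (List.mem_of_mem_drop hM)) (hCr c h1.2)

/-- growth -/
theorem growth (s : ℕ) (hs : 0 < s) (a b : ℕ) : ∃ n₀ : ℕ, ∀ n ≥ n₀, (a * n + b) * (s - 1) ^ n < s ^ n := by
  set r : ℝ := ((s - 1 : ℕ) : ℝ) / s with hr
  have hs' : (0 : ℝ) < s := by exact_mod_cast hs
  have hr0 : 0 ≤ r := by positivity
  have hr1 : r < 1 := by
    rw [hr, div_lt_one hs']
    exact_mod_cast Nat.sub_lt hs one_pos
  have h1 := (tendsto_self_mul_const_pow_of_lt_one hr0 hr1).const_mul (a : ℝ)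
  have h2 := (tendsto_pow_atTop_nhds_zero_of_lt_one hr0 hr1).const_mul (b : ℝ)
  have h3 := h1.add h2
  rw [mul_zero, mul_zero, add_zero] at h3
  obtain ⟨n₀, hn₀⟩ := eventually_atTop.1 (h3.eventually (Iio_mem_nhds one_pos))
  refine ⟨n₀, fun n hn => ?_⟩
  have h4 : (a : ℝ) * ((n : ℝ) * r ^ n) + b * r ^ n < 1 := hn₀ n hn
  have h5 : r ^ n * (s : ℝ) ^ n = ((s - 1 : ℕ) : ℝ) ^ n := by
    rw [hr, div_pow, div_mul_cancel₀ _ (by positivity)]
  have h6 : ((a * n + b : ℕ) : ℝ) * ((s - 1 : ℕ) : ℝ) ^ n < (s : ℝ) ^ n := by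
    rw [← h5]
    push_cast
    calc ((a : ℝ) * n + b) * (r ^ n * (s : ℝ) ^ n) =
        ((a : ℝ) * ((n : ℝ) * r ^ n) + b * r ^ n) * (s : ℝ) ^ n := by ring
      _ < 1 * (s : ℝ) ^ n := by gcongr
      _ = (s : ℝ) ^ n := one_mul _
  exact_mod_cast h6

theorem main1 (hd : 2 ≤ d) {x : CV d} (hx : ND x) {ε ε' : ℝ} (hε' : 0 < ε') (hε : ε' < ε)
    (hε1 : ε ≤ 1 / 2) (hI : ∀ p : ℂ × ℂ, p ≠ 0 → ∀ e : ℂ × ℂ, e ≠ 0 → e ∈ Rc x ε' p) :
    ∃ p₀ : ℕ, ∀ p ≥ p₀, ∃ w : List E2, Ok ε w ∧ w.length = p ∧ HypTop (Sg x w) := by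
  classical
  obtain ⟨W₁, W₂, s, L, T, B, h⟩ := blocks hd hx hε' hε hε1 hI
  obtain ⟨Cr, hCr1, hCr2⟩ := exists_Cr hd hx
  have hs : 0 < s := by
    obtain ⟨i, -⟩ := h.ctl (1, 0) (fun h' => one_ne_zero (congrArg Prod.fst h'))
    exact i.pos
  have hBU : ∀ i, ∀ p ∈ W₁, Ph x (B i) p ∈ W₁ := fun i p hp => h.sub (h.map i p hp)
  set K := Cr.card with hK
  obtain ⟨n₀, hn₀⟩ := growth s hs (2 * L * K) ((T + 2 * L) * K)
  refine ⟨T + 2 * L * n₀, fun p hp => ?_⟩
  have hL := h.L0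
  set n := (p - T) / (2 * L) with hn
  set t := T + (p - T) % (2 * L) with ht
  have hnn : n₀ ≤ n := by
    rw [hn, Nat.le_div_iff_mul_le (by omega)]
    have : n₀ * (2 * L) = 2 * L * n₀ := by ring
    omega
  have hpt : 2 * (n * L) + t = p := by
    have h1 : (p - T) % (2 * L) + (p - T) / (2 * L) * (2 * L) = p - T := Nat.mod_add_div' _ _
    rw [← hn] at h1
    have h2 : n * (2 * L) = 2 * (n * L) := by ring
    have h3 : T ≤ p := by omega
    omega
  have htlt : t < T + 2 * L := by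
    have : (p - T) % (2 * L) < 2 * L := Nat.mod_lt _ (by omega)
    omega
  obtain ⟨τ, hτ, hτl, hτm⟩ := h.tail t (by omega)
  have hτU : ∀ p ∈ W₁, Ph x τ p ∈ W₁ := fun p hp => h.sub (hτm p hp)
  have hfl : ∀ α : Fin n → Fin s, (flat B n α).length = n * L := flat_length h.len n
  have hfo : ∀ α : Fin n → Fin s, Ok ε (flat B n α) := flat_ok h.ok n
  have hfm : ∀ (α : Fin n → Fin s), ∀ p ∈ W₁, Ph x (flat B n α) p ∈ W₁ := fun α p hp =>
    flat_map hBU n α hp
  -- the bad events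
  have hcount : ∀ M : Finset (ℂ × ℂ), (∀ q ∈ M, q ≠ 0) →
      (Finset.univ.filter fun β : Fin n → Fin s => ∃ q ∈ M, Ph x (flat B n β) q ∉ W₁).card ≤
        M.card * (s - 1) ^ n := by
    intro M hM
    have h1 : (Finset.univ.filter fun β : Fin n → Fin s => ∃ q ∈ M, Ph x (flat B n β) q ∉ W₁) ⊆
        M.biUnion fun q => bad x B W₁ n q := by
      intro β hβ
      rw [Finset.mem_filter] at hβ
      obtain ⟨-, q, hq, hq2⟩ := hβ
      rw [Finset.mem_biUnion]
      exact ⟨q, hq, by rw [bad, Finset.mem_filter]; exact ⟨Finset.mem_univ _, hq2⟩⟩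
    refine (Finset.card_le_card h1).trans (Finset.card_biUnion_le.trans ?_)
    have h2 : ∀ q ∈ M, (bad x B W₁ n q).card ≤ (s - 1) ^ n := fun q hq =>
      bad_card hx hε1 h.ok hBU h.ctl n (hM q hq)
    refine (Finset.sum_le_card_nsmul _ _ _ h2).trans ?_
    rw [smul_eq_mul]
  obtain ⟨α, β, hα, hβ⟩ := double (A := Fin n → Fin s)
    (b₁ := fun α β => ∃ q ∈ marks x Cr (flat B n α), Ph x (flat B n β) q ∉ W₁)
    (b₂ := fun α β => ∃ q ∈ marks x Cr (flat B n β ++ τ), Ph x (flat B n α) q ∉ W₁)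
    (m₁ := n * L * K * (s - 1) ^ n) (m₂ := (n * L + t) * K * (s - 1) ^ n)
    (by
      intro α
      refine (hcount _ fun q hq => marks_ne hx hε1 (fun c hc => (hCr1 c hc).1) (hfo α) hq).trans ?_
      have := marks_card x Cr (flat B n α)
      rw [hfl] at this
      gcongr)
    (by
      intro β
      refine (hcount _ fun q hq => marks_ne hx hε1 (fun c hc => (hCr1 c hc).1)
        ((hfo β).app hτ) hq).trans ?_
      have := marks_card x Cr (flat B n β ++ τ)
      rw [List.length_append, hfl, hτl] at this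
      gcongr)
    (by
      have h1 := hn₀ n hnn
      have h2 : Fintype.card (Fin n → Fin s) = s ^ n := by simp
      rw [h2]
      refine lt_of_le_of_lt ?_ h1
      rw [← add_mul]
      refine Nat.mul_le_mul_right _ ?_
      have : (n * L + t) * K ≤ (n * L + (T + 2 * L)) * K :=
        Nat.mul_le_mul_right _ (Nat.add_le_add_left htlt.le _)
      calc n * L * K + (n * L + t) * K ≤ n * L * K + (n * L + (T + 2 * L)) * K :=
            Nat.add_le_add_left this _
        _ = 2 * L * K * n + (T + 2 * L) * K := by ring)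
  push Not at hα hβ
  set w := flat B n α ++ (flat B n β ++ τ) with hw
  have hok : Ok ε w := (hfo α).app ((hfo β).app hτ)
  have hwm : ∀ p ∈ W₁, Ph x w p ∈ W₂ := by
    intro p hp
    rw [hw, Ph_append, Ph_append]
    exact hτm _ (hfm β _ (hfm α p hp))
  refine ⟨w, hok, ?_, ?_⟩
  · rw [hw, List.length_append, List.length_append, hfl, hfl, hτl]
    omega
  · have hPT : PT (Ph x w) W₁ := by
      obtain ⟨δ, hδ, h1⟩ := h.mar
      exact ⟨h.ne, h.cone, ⟨δ, hδ, fun p hp M hM => h1 _ (hwm p hp) M hM⟩, h.off⟩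
    refine hyp_word hd hx hε1 hok fun u v huv hv c hc0 hc1 => ⟨1, W₁, hPT, ?_⟩
    obtain ⟨c', hc', a, ha, hca⟩ := hCr2 c hc0 hc1
    rw [Function.iterate_one, hca, ← Ph_append, Ph_smul]
    refine h.cone _ ?_ _ (pow_ne_zero _ ha)
    rw [Ph_append]
    rw [hw] at huv
    rcases List.append_eq_append_iff.1 huv with ⟨u₂, hu1, hu2⟩ | ⟨v₁, hv1, hv2⟩
    · -- the stage is in the second part
      have h1 := hβ _ (mem_marks x hu2 hv hc')
      rw [hw, Ph_append, Ph_append]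
      exact hτU _ (hfm β _ h1)
    · by_cases hv0 : v₁ = []
      · rw [hv0, List.nil_append] at hv2
        have h1 := hβ _ (mem_marks x (u := []) (v := v) (by rw [List.nil_append]; exact hv2.symm) hv hc')
        rw [hw, Ph_append, Ph_append]
        exact hτU _ (hfm β _ h1)
      · have h1 := hα _ (mem_marks x hv1 hv0 hc')
        have h2 : Ph x v c' ∈ W₁ := by
          rw [hv2, Ph_append, Ph_append]
          exact hτU _ h1
        exact h.sub (hwm _ h2)

theorem exist_of_exp {x : CV d} {ε : ℝ} {c : ℝ} (hc : 0 < c) (C : ℝ) (hε : 0 < ε)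
    (hC : ∀ n : ℕ,
      volume {ω : Fin (n + 1) → E2 | (∀ i, ω i ∈ Bl ε) ∧ ¬ HypTop (Sg x (List.ofFn ω))} ≤
        ENNReal.ofReal (C * Real.exp (-c * ((n + 1 : ℕ) : ℝ))) * volume (Bl ε) ^ (n + 1)) :
    ∃ n₀ : ℕ, ∀ n ≥ n₀, ∃ w : List E2, Ok ε w ∧ w.length = n ∧ HypTop (Sg x w) := by
  have hlim : Tendsto (fun n : ℕ => C * Real.exp (-c * ((n + 1 : ℕ) : ℝ))) atTop (𝓝 0) := by
    have h1 : Tendsto (fun n : ℕ => c * ((n + 1 : ℕ) : ℝ)) atTop atTop := by
      apply Tendsto.const_mul_atTop hc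
      exact tendsto_natCast_atTop_atTop.comp (tendsto_add_atTop_nat 1)
    have h2 := (Real.tendsto_exp_neg_atTop_nhds_zero.comp h1).const_mul C
    rw [mul_zero] at h2
    refine h2.congr fun n => ?_
    rw [Function.comp_apply, neg_mul]
  obtain ⟨n₀, hn₀⟩ := eventually_atTop.1 (hlim.eventually (Iio_mem_nhds one_pos))
  refine ⟨n₀ + 1, fun m hm => ?_⟩
  obtain ⟨n, rfl⟩ : ∃ n, m = n + 1 := ⟨m - 1, by omega⟩
  by_contra hcon
  push Not at hcon
  have h1 := hC n
  have h2 : {ω : Fin (n + 1) → E2 | (∀ i, ω i ∈ Bl ε) ∧ ¬ HypTop (Sg x (List.ofFn ω))} =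
      univ.pi fun _ => Bl ε := by
    ext ω
    simp only [mem_ofPred_eq, Set.mem_pi, mem_univ, true_imp_iff]
    refine ⟨fun h => h.1, fun h => ⟨h, hcon _ ?_ (by simp)⟩⟩
    intro M hM
    rw [List.mem_ofFn] at hM
    obtain ⟨i, rfl⟩ := hM
    exact h i
  rw [h2, volume_pi_pi, Finset.prod_const, Finset.card_univ, Fintype.card_fin] at h1
  have h3 : 0 < volume (Bl ε) ^ (n + 1) := by
    apply ENNReal.pow_pos
    exact (isOpen_Bl ε).measure_pos _ ⟨I2, I2_mem hε⟩
  have h4 : volume (Bl ε) ^ (n + 1) ≠ ⊤ := ENNReal.pow_ne_top (vol_Bl ε)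
  have h5 : ENNReal.ofReal (C * Real.exp (-c * ((n + 1 : ℕ) : ℝ))) < 1 := by
    rw [ENNReal.ofReal_lt_one]
    exact hn₀ n (by omega)
  have h6 : ENNReal.ofReal (C * Real.exp (-c * ((n + 1 : ℕ) : ℝ))) * volume (Bl ε) ^ (n + 1) <
      1 * volume (Bl ε) ^ (n + 1) := by
    rw [ENNReal.mul_lt_mul_iff_left h3.ne' h4]
    exact h5
  rw [one_mul] at h6
  exact absurd (h1.trans_lt h6) (lt_irrefl _)

/-- Hyperbolic compositions of all large lengths. -/
theorem exist_all (hd : 2 ≤ d) {x : CV d} (hx : ND x) {ε : ℝ} (hε : 0 < ε) :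
    ∃ p₀ : ℕ, ∀ p ≥ p₀, ∃ w : List E2, Ok ε w ∧ w.length = p ∧ HypTop (Sg x w) := by
  set ε₁ := min ε (1 / 2) with hε₁
  have h0 : 0 < ε₁ := lt_min hε (by norm_num)
  have h1 : ε₁ ≤ 1 / 2 := min_le_right _ _
  by_cases hI : ∀ p : ℂ × ℂ, p ≠ 0 → ∀ e : ℂ × ℂ, e ≠ 0 → e ∈ Rc x (ε₁ / 2) p
  · obtain ⟨p₀, hp₀⟩ := main1 hd hx (half_pos h0) (half_lt_self h0) h1 hI
    refine ⟨p₀, fun p hp => ?_⟩
    obtain ⟨w, hw, h2, h3⟩ := hp₀ p hp
    exact ⟨w, hw.mono (min_le_left _ _), h2, h3⟩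
  · push Not at hI
    obtain ⟨p, hp, e, he, hne⟩ := hI
    obtain ⟨C, c, hc, hC⟩ := main2 hd hx (half_pos h0) (by linarith) ⟨p, hp, e, he, hne⟩
    obtain ⟨n₀, hn₀⟩ := exist_of_exp hc C (half_pos h0) hC
    refine ⟨n₀, fun p hp => ?_⟩
    obtain ⟨w, hw, h2, h3⟩ := hn₀ p hp
    exact ⟨w, hw.mono ((half_le_self h0.le).trans (min_le_left _ _)), h2, h3⟩

end Pool.Agent.W739.RC
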