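import Mathlib
import Pool.Agent.W739.RC.C2
import Pool.Agent.W739.RC.Pair

/-! A map with an attracting cycle has reachable cones which are not everything. -/

set_option autoImplicit false

open Topology Filter Metric Set
open scoped OnePoint

namespace Pool.Agent.W739.RC

open Pool.Agent.H790R3.RB
open Pool.Agent.W739.PC (orbF orbF_continuous)

variable {d : ℕ}

theorem Ph_rep_I2 (x : CV d) (i : ℕ) (p : ℂ × ℂ) :
    Ph x (List.ofFn fun _ : Fin i => I2) p = (hF x)^[i] p := by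
  induction i generalizing p with
  | zero => rfl
  | succ i ih =>
    rw [List.ofFn_succ]
    show Ph x (List.ofFn fun _ : Fin i => I2) (mv I2 (hF x p)) = _
    rw [ih, mv_I2, Function.iterate_succ_apply]

theorem unif_word (x : CV d) {K : Set (ℂ × ℂ)} (hK : IsCompact K) {O : Set (ℂ × ℂ)}
    (hO : IsOpen O) (i : ℕ) (h : ∀ p ∈ K, (hF x)^[i] p ∈ O) :
    ∃ ε : ℝ, 0 < ε ∧ ∀ u : List E2, u.length = i → Ok ε u → ∀ p ∈ K, Ph x u p ∈ O := by
  have hc := orbF_continuous (stp_continuous x) i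
  have h1 : ∀ p ∈ K, ∀ᶠ q : (Fin i → E2) × (ℂ × ℂ) in 𝓝 ((fun _ => I2), p),
      orbF (stp x) i q.1 q.2 ∈ O := by
    intro p hp
    apply (hO.preimage hc).mem_nhds
    show orbF (stp x) i (fun _ => I2) p ∈ O
    rw [orbF_ofFn, Ph_rep_I2]
    exact h p hp
  have h2 : ∀ᶠ ω : Fin i → E2 in 𝓝 (fun _ => I2), ∀ p ∈ K, orbF (stp x) i ω p ∈ O :=
    hK.eventually_forall_of_forall_eventually h1
  obtain ⟨ε, hε, h3⟩ := Metric.eventually_nhds_iff.1 h2
  refine ⟨ε, hε, fun u hu hok p hp => ?_⟩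
  subst hu
  have h4 := h3 (y := fun k => u.get k) (by
    rw [dist_pi_lt_iff hε]
    intro k
    rw [dist_eq_norm]
    exact hok _ (List.get_mem _ _)) p hp
  rw [orbF_ofFn, List.ofFn_get] at h4
  exact h4

theorem sink_II (hd : 2 ≤ d) {x : CV d} (hx : ND x) {n : ℕ} {a : OnePoint ℂ}
    (hs : Sink (sp x) n a) : ∃ ε₀ : ℝ, 0 < ε₀ ∧ ∀ ε : ℝ, ε ≤ ε₀ →
      ∃ p₀ : ℂ × ℂ, p₀ ≠ 0 ∧ ∃ e : ℂ × ℂ, e ≠ 0 ∧ e ∉ Rc x ε p₀ := by
  classical
  obtain ⟨hn, ha, U, hU, hunif⟩ := hs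
  obtain ⟨hcont, hiter, hprcr, hprhc, hprc⟩ := SP d x (by omega) hx
  set f := sp x with hf
  have hfi : ∀ i, Continuous (f^[i]) := fun i => hcont.iterate i
  -- a point outside the cycle
  obtain ⟨b, hb⟩ : ∃ b : OnePoint ℂ, b ∉ (Finset.range n).image fun j => f^[j] a := by
    have : Infinite (OnePoint ℂ) := Infinite.of_injective _ OnePoint.coe_injective
    exact Infinite.exists_notMem_finset _
  have hbj : ∀ j < n, f^[j] a ≠ b := by
    intro j hj h
    apply hb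
    rw [Finset.mem_image]
    exact ⟨j, Finset.mem_range.2 hj, h⟩
  set A' : Set (OnePoint ℂ) := ⋂ j ∈ Finset.range n, (f^[j]) ⁻¹' {b}ᶜ with hA'
  have hA'o : A' ∈ 𝓝 a := by
    rw [hA', Filter.biInter_finset_mem]
    intro j hj
    exact (isOpen_compl_singleton.preimage (hfi j)).mem_nhds (hbj j (Finset.mem_range.1 hj))
  have hA'm : ∀ w ∈ A', ∀ j < n, f^[j] w ≠ b := by
    intro w hw j hj
    rw [hA', mem_iInter₂] at hw
    exact hw j (Finset.mem_range.2 hj)
  obtain ⟨k₀, hk₀⟩ := eventually_atTop.1 (hunif A' hA'o)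
  have hper : ∀ k, f^[n * k] a = a := iter_per ha
  set A : Set (OnePoint ℂ) := U ∩ ⋂ k ∈ Finset.range k₀, (f^[n * k]) ⁻¹' A' with hA
  have hAn : A ∈ 𝓝 a := by
    refine Filter.inter_mem hU ?_
    rw [Filter.biInter_finset_mem]
    intro k _
    apply (hfi _).continuousAt.preimage_mem_nhds
    rw [hper]
    exact hA'o
  have hAb : ∀ w ∈ A, ∀ i, f^[i] w ≠ b := by
    intro w hw i
    have h1 : ∀ k, f^[n * k] w ∈ A' := by
      intro k
      rcases lt_or_ge k k₀ with h | h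
      · have := hw.2
        rw [mem_iInter₂] at this
        exact this k (Finset.mem_range.2 h)
      · exact hk₀ k h w hw.1
    have h2 := hA'm _ (h1 (i / n)) (i % n) (Nat.mod_lt _ hn)
    rw [← Function.iterate_add_apply, Nat.mod_add_div] at h2
    exact h2
  -- a closed neighbourhood
  obtain ⟨B, hBn, hBc, hBA⟩ := exists_mem_nhds_isClosed_subset hAn
  obtain ⟨k₁, hk₁⟩ := eventually_atTop.1 (hunif (interior B) (interior_mem_nhds.2 hBn))
  set m := n * (k₁ + 1) with hm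
  have hm0 : 0 < m := Nat.mul_pos hn (Nat.succ_pos _)
  have hBm : ∀ w ∈ B, f^[m] w ∈ interior B := fun w hw => hk₁ (k₁ + 1) (Nat.le_succ _) w (hBA hw).1
  -- the cones
  set Bh : Set (ℂ × ℂ) := {p | ‖p‖ = 1 ∧ pr p ∈ B} with hBh
  have hne : ∀ p ∈ sphere (0 : ℂ × ℂ) 1, p ≠ 0 := fun p hp h0 => by
    rw [h0, mem_sphere_iff_norm, sub_zero, norm_zero] at hp
    exact zero_ne_one hp
  have hBhc : IsCompact Bh := by
    have h1 : Bh = sphere (0 : ℂ × ℂ) 1 ∩ pr ⁻¹' B := by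
      ext p
      rw [hBh, mem_ofPred_eq, mem_inter_iff, mem_sphere_iff_norm, sub_zero, mem_preimage]
    rw [h1]
    apply IsCompact.of_isClosed_subset (isCompact_sphere (0 : ℂ × ℂ) 1) _ inter_subset_left
    exact (hprc.mono fun p hp => hne p hp).preimage_isClosed_of_isClosed isClosed_sphere hBc
  set Oh : Set (ℂ × ℂ) := {p | p ≠ 0 ∧ pr p ∈ interior B} with hOh
  have hOho : IsOpen Oh := by
    have h1 : Oh = {p : ℂ × ℂ | p ≠ 0} ∩ pr ⁻¹' interior B := rfl
    rw [h1]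
    exact hprc.isOpen_inter_preimage isOpen_ne isOpen_interior
  set bh := hc b with hbh
  have hbh0 : bh ≠ 0 := (hprhc b).2
  have hprb : pr bh = b := (hprhc b).1
  set Ob : Set (ℂ × ℂ) := {p | cr p bh ≠ 0} with hOb
  have hObo : IsOpen Ob := by
    have : Continuous fun p : ℂ × ℂ => cr p bh := by unfold cr; fun_prop
    exact isOpen_ne.preimage this
  have hBh0 : ∀ p ∈ Bh, p ≠ 0 := by
    rintro p ⟨hp, -⟩ h0
    rw [h0, norm_zero] at hp
    exact zero_ne_one hp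
  have hiO : ∀ i, ∀ p ∈ Bh, (hF x)^[i] p ∈ Ob := by
    intro i p hp h0
    have h1 := hBh0 p hp
    have h2 := (hprcr _ _ (hx.iter_ne i h1) hbh0).2 h0
    rw [← hiter p h1 i, hprb] at h2
    exact hAb _ (hBA hp.2) i h2
  have hmO : ∀ p ∈ Bh, (hF x)^[m] p ∈ Oh := by
    intro p hp
    have h1 := hBh0 p hp
    refine ⟨hx.iter_ne m h1, ?_⟩
    rw [← hiter p h1 m]
    exact hBm _ hp.2
  obtain ⟨ε₁, hε₁, h₁⟩ := unif_word x hBhc hOho m hmO
  have h₂' : ∀ i : ℕ, ∃ ε : ℝ, 0 < ε ∧ ∀ u : List E2, u.length = i → Ok ε u → ∀ p ∈ Bh,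
      Ph x u p ∈ Ob := fun i => unif_word x hBhc hObo i (hiO i)
  choose ε₂ hε₂ h₂ using h₂'
  obtain ⟨ε₃, hε₃, h₃⟩ : ∃ ε₃ : ℝ, 0 < ε₃ ∧ ∀ i ∈ Finset.range (m + 1), ε₃ ≤ ε₂ i := by
    obtain ⟨i₀, -, hi₀⟩ := Finset.exists_min_image (Finset.range (m + 1)) ε₂
      ⟨0, Finset.mem_range.2 (Nat.succ_pos m)⟩
    exact ⟨ε₂ i₀, hε₂ i₀, hi₀⟩
  refine ⟨min (min ε₁ ε₃) (1 / 2), by positivity, fun ε hε => ?_⟩
  have hε₁' : ε ≤ ε₁ := hε.trans ((min_le_left _ _).trans (min_le_left _ _))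
  have hε₃' : ε ≤ ε₃ := hε.trans ((min_le_left _ _).trans (min_le_right _ _))
  have hε₄ : ε ≤ 1 / 2 := hε.trans (min_le_right _ _)
  have hnp : ∀ p : ℂ × ℂ, p ≠ 0 → pr p ∈ B → nrm p ∈ Bh ∧ p = ((‖p‖ : ℝ) : ℂ) • nrm p := by
    intro p hp hpB
    refine ⟨⟨nrm_norm hp, ?_⟩, ?_⟩
    · have : pr (nrm p) = pr p := by
        rw [hprcr _ _ (nrm_ne hp) hp, nrm, cr_smul_left, cr_self, mul_zero]
      rw [this]
      exact hpB
    · rw [nrm, smul_smul, mul_inv_cancel₀, one_smul]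
      exact_mod_cast norm_ne_zero_iff.2 hp
  have key : ∀ (N : ℕ) (u : List E2), u.length ≤ N → Ok ε u → ∀ p : ℂ × ℂ, p ≠ 0 → pr p ∈ B →
      cr (Ph x u p) bh ≠ 0 := by
    intro N
    induction N using Nat.strong_induction_on with
    | _ N ih =>
      intro u hu hok p hp hpB
      obtain ⟨h4, h5⟩ := hnp p hp hpB
      rcases le_or_gt u.length m with h | h
      · have h6 : Ph x u (nrm p) ∈ Ob := h₂ u.length u rfl
          (hok.mono (hε₃'.trans (h₃ _ (Finset.mem_range.2 (by omega))))) _ h4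
        rw [h5, Ph_smul, cr_smul_left]
        refine mul_ne_zero (pow_ne_zero _ ?_) h6
        exact_mod_cast norm_ne_zero_iff.2 hp
      · have hsplit : u = u.take m ++ u.drop m := (List.take_append_drop m u).symm
        have hok' := hok
        rw [hsplit] at hok'
        have hl1 : (u.take m).length = m := by rw [List.length_take]; omega
        have hl2 : (u.drop m).length = u.length - m := List.length_drop
        have h6 : Ph x (u.take m) (nrm p) ∈ Oh := h₁ _ hl1 (hok'.left.mono hε₁') _ h4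
        have hpn : ((‖p‖ : ℝ) : ℂ) ≠ 0 := by exact_mod_cast norm_ne_zero_iff.2 hp
        have h7 : Ph x (u.take m) p ≠ 0 := Ph_ne hx hε₄ hok'.left hp
        have h8 : pr (Ph x (u.take m) p) ∈ B := by
          have : pr (Ph x (u.take m) p) = pr (Ph x (u.take m) (nrm p)) := by
            rw [hprcr _ _ h7 h6.1]
            exact Ph_cr hp (hBh0 _ h4) (by rw [nrm, cr_smul_right, cr_self, mul_zero])
          rw [this]
          exact interior_subset h6.2
        rw [hsplit, Ph_append]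
        exact ih (u.length - m) (by omega) _ (by rw [hl2]) hok'.right _ h7 h8
  refine ⟨hc a, (hprhc a).2, bh, hbh0, ?_⟩
  rintro ⟨-, u, -, hu, hcr⟩
  refine key u.length u le_rfl hu (hc a) (hprhc a).2 ?_ hcr
  rw [(hprhc a).1]
  exact mem_of_mem_nhds hBn

end Pool.Agent.W739.RC
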